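import Pool.Agent.Lib.MP_2710d6_gt.HK.Lin

open MeasureTheory Set Filter Topology
open scoped Manifold ContDiff

namespace Pool.Agent.DonHK

variable {M : Type*} [TopologicalSpace M] [ChartedSpace Pt M]

/-- Smooth functions. -/
abbrev Sm (f : M → ℝ) : Prop := ContMDiff 𝓘(ℝ, Pt) 𝓘(ℝ, ℝ) ∞ f

def loc (f : M → ℝ) (p : M) : Pt → ℝ := fun y => f ((chartAt Pt p).symm y)

noncomputable def df (f : M → ℝ) : Form1 M := fun x => (mvfderiv 𝓘(ℝ, Pt) f x).toLinearMap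

theorem Sm.md {f : M → ℝ} (h : Sm f) (x : M) : MDifferentiableAt 𝓘(ℝ, Pt) 𝓘(ℝ, ℝ) f x :=
  h.mdifferentiableAt (by simp)

theorem df_add {f g : M → ℝ} (hf : Sm f) (hg : Sm g) (x : M) (u : Tan x) :
    df (fun x => f x + g x) x u = df f x u + df g x u := by
  simp only [df, ContinuousLinearMap.coe_coe]
  rw [mvfderiv_fun_add (hf.md x) (hg.md x)]
  rfl

theorem df_mul {f g : M → ℝ} (hf : Sm f) (hg : Sm g) (x : M) (u : Tan x) :
    df (fun x => f x * g x) x u = f x * df g x u + g x * df f x u := by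
  simp only [df, ContinuousLinearMap.coe_coe]
  rw [mvfderiv_fun_mul (hf.md x) (hg.md x)]
  rfl

theorem df_const (c : ℝ) (x : M) (u : Tan x) : df (fun _ => c) x u = 0 := by
  simp only [df, ContinuousLinearMap.coe_coe]
  rw [mvfderiv_const]
  rfl

theorem df_congr {f g : M → ℝ} {x : M} (h : f =ᶠ[𝓝 x] g) (u : Tan x) : df f x u = df g x u := by
  have h1 : (mfderiv 𝓘(ℝ, Pt) 𝓘(ℝ, ℝ) f x : Tan x →L[ℝ] ℝ) = mfderiv 𝓘(ℝ, Pt) 𝓘(ℝ, ℝ) g x :=
    h.mfderiv_eq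
  exact congrArg (fun L : Tan x →L[ℝ] ℝ => L u) h1

theorem sm_exp {f : M → ℝ} (hf : Sm f) : Sm fun x => Real.exp (f x) :=
  Real.contDiff_exp.comp_contMDiff hf

theorem df_exp {f : M → ℝ} (hf : Sm f) (x : M) (u : Tan x) :
    df (fun x => Real.exp (f x)) x u = Real.exp (f x) * df f x u := by
  have h1 := ((Real.hasDerivAt_exp (f x)).hasFDerivAt.hasMFDerivAt.comp x
    (hf.md x).hasMFDerivAt).mfderiv
  have h2 := congrArg (fun L : Tan x →L[ℝ] ℝ => L u) h1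
  exact h2.trans (mul_comm _ _)

theorem at_tgt {p : M} {g : Pt → ℝ} (h : ContDiffOn ℝ ∞ g (chartAt Pt p).target) {y : Pt}
    (hy : y ∈ (chartAt Pt p).target) : ContDiffAt ℝ ∞ g y :=
  h.contDiffAt ((chartAt Pt p).open_target.mem_nhds hy)

theorem dif_tgt {p : M} {g : Pt → ℝ} (h : ContDiffOn ℝ ∞ g (chartAt Pt p).target) {y : Pt}
    (hy : y ∈ (chartAt Pt p).target) : DifferentiableAt ℝ g y :=
  (at_tgt h hy).differentiableAt (by simp)

theorem pd_on {W : Set Pt} (hW : IsOpen W) {g : Pt → ℝ} (h : ContDiffOn ℝ ∞ g W) (a : Fin 4) :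
    ContDiffOn ℝ ∞ (pd a g) W :=
  (h.fderiv_of_isOpen hW (m := ∞) (by simp)).clm_apply contDiffOn_const

theorem pd_congr {f g : Pt → ℝ} {y : Pt} (h : f =ᶠ[𝓝 y] g) (a : Fin 4) : pd a f y = pd a g y := by
  unfold pd; rw [h.fderiv_eq]

theorem pd_mul {f g : Pt → ℝ} {y : Pt} (hf : DifferentiableAt ℝ f y) (hg : DifferentiableAt ℝ g y)
    (a : Fin 4) : pd a (fun y => f y * g y) y = pd a f y * g y + f y * pd a g y := by
  unfold pd; rw [fderiv_fun_mul hf hg]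
  simp only [add_apply, smul_apply, smul_eq_mul]
  ring

theorem pd_comm {f : Pt → ℝ} {y : Pt} (h : ContDiffAt ℝ ∞ f y) (a c : Fin 4) :
    pd a (pd c f) y = pd c (pd a f) y := by
  have h1 := h.isSymmSndFDerivAt (by
    simp only [minSmoothness_of_isRCLikeNormedField]
    exact WithTop.coe_le_coe.2 le_top)
  have h2 : DifferentiableAt ℝ (fderiv ℝ f) y :=
    (h.fderiv_right (m := ∞) (by simp)).differentiableAt (by simp)
  have h3 : ∀ u v : Pt, fderiv ℝ (fun y => fderiv ℝ f y v) y u = fderiv ℝ (fderiv ℝ f) y u v := by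
    intro u v
    rw [fderiv_clm_apply h2 (differentiableAt_const _)]
    simp
  unfold pd
  rw [h3, h3, h1]

variable [IsManifold 𝓘(ℝ, Pt) ∞ M]

theorem sm_loc {f : M → ℝ} (h : Sm f) (p : M) : ContDiffOn ℝ ∞ (loc f p) (chartAt Pt p).target :=
  contMDiffOn_iff_contDiffOn.1 (h.comp_contMDiffOn contMDiffOn_chart_symm)

theorem sm_of_loc {f : M → ℝ} (h : ∀ p, ContDiffOn ℝ ∞ (loc f p) (chartAt Pt p).target) :
    Sm f := by
  intro p
  have hs := (chartAt Pt p).open_source.mem_nhds (mem_chart_source Pt p)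
  have h1 : ContMDiffAt 𝓘(ℝ, Pt) 𝓘(ℝ, Pt) ∞ (chartAt Pt p) p :=
    contMDiffOn_chart.contMDiffAt hs
  have h2 := (at_tgt (h p) (mem_chart_target Pt p)).contMDiffAt.comp p h1
  refine h2.congr_of_eventuallyEq ?_
  filter_upwards [hs] with x hx
  simp [loc, (chartAt Pt p).left_inv hx]

theorem df_frame {f : M → ℝ} (h : Sm f) (p : M) (a : Fin 4) {y : Pt}
    (hy : y ∈ (chartAt Pt p).target) : co1 (df f) p a y = pd a (loc f p) y := by
  have h1 := mfderiv_comp y (h.md _) ((mdifferentiable_chart (I := 𝓘(ℝ, Pt)) p).mdifferentiableAt_symm hy)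
  rw [mfderiv_eq_fderiv] at h1
  exact (congrArg (fun L : Pt →L[ℝ] ℝ => L (Pi.single a 1)) h1).symm

theorem dt_frame (p : M) {y : Pt} (hy : y ∈ (chartAt Pt p).target) :
    dt (fun a i => (frame p y a : Pt) i) ≠ 0 := by
  have h1 := (mdifferentiable_chart (I := 𝓘(ℝ, Pt)) p).comp_symm_deriv hy
  let P : Tan ((chartAt Pt p).symm y) →L[ℝ] Pt :=
    mfderiv 𝓘(ℝ, Pt) 𝓘(ℝ, Pt) (chartAt Pt p) ((chartAt Pt p).symm y)
  have h2 : ∀ a, P (frame p y a) = Pi.single a 1 := fun a =>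
    congrArg (fun L : Pt →L[ℝ] Pt => L (Pi.single a 1)) h1
  let q : Fin 4 → Tan ((chartAt Pt p).symm y) →ₗ[ℝ] ℝ := fun i =>
    (LinearMap.proj i).comp P.toLinearMap
  have h3 : ∀ i a, q i (frame p y a) = (Pi.single a 1 : Pt) i := fun i a => congrFun (h2 a) i
  let B : Fin 4 → Fin 4 → LinearMap.BilinForm ℝ (Tan ((chartAt Pt p).symm y)) := fun i j =>
    (LinearMap.mul ℝ ℝ).compl₁₂ (q i) (q j) - (LinearMap.mul ℝ ℝ).compl₁₂ (q j) (q i)
  have hB : ∀ i j u v, B i j u v = q i u * q j v - q j u * q i v := fun _ _ _ _ => rfl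
  have hA : ∀ i j, (B i j).IsAlt := fun i j u => by rw [hB]; ring
  have h4 := wedge_fr (hA 0 1) (hA 2 3) (frame p y)
  intro h0
  rw [h0, zero_mul] at h4
  simp [wedge, ev, hB, h3] at h4

/-- Smooth two-forms. -/
def Sm2 (α : Form2 M) : Prop :=
  (∀ x, (α x).IsAlt) ∧ ∀ p a c, ContDiffOn ℝ ∞ (co2 α p a c) (chartAt Pt p).target

omit [IsManifold 𝓘(ℝ, Pt) ∞ M] in
theorem Closed2.sm {α : Form2 M} (h : Closed2 α) : Sm2 α := ⟨h.1, h.2.1⟩

omit [IsManifold 𝓘(ℝ, Pt) ∞ M] in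
theorem wedge_on {α β : Form2 M} (h : Sm2 α) (k : Sm2 β) (p : M) : ContDiffOn ℝ ∞
    (fun y => wedge (fun a c => co2 α p a c y) (fun a c => co2 β p a c y)) (chartAt Pt p).target :=
  ((((((h.2 p 0 1).mul (k.2 p 2 3)).sub ((h.2 p 0 2).mul (k.2 p 1 3))).add
    ((h.2 p 0 3).mul (k.2 p 1 2))).add ((h.2 p 2 3).mul (k.2 p 0 1))).sub
    ((h.2 p 1 3).mul (k.2 p 0 2))).add ((h.2 p 1 2).mul (k.2 p 0 3))

theorem quot_loc {Ω α β : Form2 M} (hΩ : ∀ x, (Ω x).IsAlt) (h : ∀ x, (α x).IsAlt)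
    (k : ∀ x, (β x).IsAlt) (p : M) {y : Pt} (hy : y ∈ (chartAt Pt p).target) :
    quot Ω α β ((chartAt Pt p).symm y) =
      wedge (fun a c => co2 α p a c y) (fun a c => co2 β p a c y) /
        (wedge (fun a c => co2 Ω p a c y) (fun a c => co2 Ω p a c y) / 2) :=
  quot_ev (hΩ _) (h _) (k _) (frame p y) (dt_frame p hy)

/-- Nondegenerate smooth two-forms. -/
def Nd (Ω : Form2 M) : Prop := Sm2 Ω ∧ ∀ x, wedge (mat Ω x) (mat Ω x) ≠ 0

theorem Nd.loc {Ω : Form2 M} (h : Nd Ω) (p : M) {y : Pt} (hy : y ∈ (chartAt Pt p).target) :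
    wedge (fun a c => co2 Ω p a c y) (fun a c => co2 Ω p a c y) / 2 ≠ 0 := by
  have := wedge_fr (h.1.1 _) (h.1.1 _) (frame p y)
  exact div_ne_zero (fun h0 => mul_ne_zero (dt_frame p hy) (h.2 _) (this.symm.trans h0)) two_ne_zero

theorem sm_quot {Ω α β : Form2 M} (hΩ : Nd Ω) (h : Sm2 α) (k : Sm2 β) : Sm (quot Ω α β) :=
  sm_of_loc fun p => ((wedge_on h k p).div ((wedge_on hΩ.1 hΩ.1 p).div_const 2)
    fun _ hy => hΩ.loc p hy).congr fun _ hy => quot_loc hΩ.1.1 h.1 k.1 p hy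

/-- `ζ = d l`. -/
def IsD (l : Form1 M) (ζ : Form2 M) : Prop :=
  (∀ x, (ζ x).IsAlt) ∧ (∀ p c, ContDiffOn ℝ ∞ (co1 l p c) (chartAt Pt p).target) ∧
    ∀ p a c, ∀ y ∈ (chartAt Pt p).target, co2 ζ p a c y = pd a (co1 l p c) y - pd c (co1 l p a) y

omit [IsManifold 𝓘(ℝ, Pt) ∞ M] in
theorem IsD.sm {l : Form1 M} {ζ : Form2 M} (h : IsD l ζ) : Sm2 ζ :=
  ⟨h.1, fun p a c => ((pd_on (chartAt Pt p).open_target (h.2.1 p c) a).sub
    (pd_on (chartAt Pt p).open_target (h.2.1 p a) c)).congr (h.2.2 p a c)⟩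

theorem IsD.mul {l : Form1 M} {ζ : Form2 M} (h : IsD l ζ) {f : M → ℝ} (hf : Sm f) :
    IsD (fun x => f x • l x) ((fun x => f x • ζ x) + w11 (df f) l) := by
  have e : ∀ p c, co1 (fun x => f x • l x) p c = fun y => loc f p y * co1 l p c y :=
    fun _ _ => rfl
  refine ⟨fun x u => ?_, fun p c => ?_, fun p a c y hy => ?_⟩
  · change f x * ζ x u u + w11 (df f) l x u u = 0
    rw [h.1 x u, w11_alt _ _ x u]; ring
  · rw [e]; exact (sm_loc hf p).mul (h.2.1 p c)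
  · rw [e, e, pd_mul (dif_tgt (sm_loc hf p) hy) (dif_tgt (h.2.1 p c) hy),
      pd_mul (dif_tgt (sm_loc hf p) hy) (dif_tgt (h.2.1 p a) hy), ← df_frame hf p a hy,
      ← df_frame hf p c hy]
    change loc f p y * co2 ζ p a c y +
      (co1 (df f) p a y * co1 l p c y - co1 l p a y * co1 (df f) p c y) = _
    rw [h.2.2 p a c y hy]
    ring

theorem isD_df {g : M → ℝ} (hg : Sm g) : IsD (df g) 0 := by
  refine ⟨fun x u => rfl, fun p c => (pd_on (chartAt Pt p).open_target (sm_loc hg p) c).congr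
    fun y hy => df_frame hg p c hy, fun p a c y hy => ?_⟩
  have e : ∀ c, co1 (df g) p c =ᶠ[𝓝 y] pd c (loc g p) := fun c => by
    filter_upwards [(chartAt Pt p).open_target.mem_nhds hy] with z hz using df_frame hg p c hz
  rw [pd_congr (e c), pd_congr (e a), pd_comm (at_tgt (sm_loc hg p) hy), sub_self]
  rfl

theorem isD_w11 {f g : M → ℝ} (hf : Sm f) (hg : Sm g) :
    IsD (fun x => f x • df g x) (w11 (df f) (df g)) := by
  convert (isD_df hg).mul hf using 1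
  ext x
  simp

theorem exists_df [T2Space M] (x : M) (ξ : Tan x →ₗ[ℝ] ℝ) :
    ∃ g : M → ℝ, Sm g ∧ ∀ u, df g x u = ξ u := by
  obtain ⟨χ⟩ : Nonempty (SmoothBumpFunction 𝓘(ℝ, Pt) x) := inferInstance
  let η : Pt →L[ℝ] ℝ := LinearMap.toContinuousLinearMap (ξ : Pt →ₗ[ℝ] ℝ)
  have h1 : ContMDiffOn 𝓘(ℝ, Pt) 𝓘(ℝ, ℝ) ∞ (fun z => η (chartAt Pt x z)) (chartAt Pt x).source :=
    η.contMDiff.comp_contMDiffOn contMDiffOn_chart
  refine ⟨_, χ.contMDiff_smul h1, fun u => ?_⟩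
  have h2 : (fun z => χ z • η (chartAt Pt x z)) =ᶠ[𝓝 x] fun z => η (chartAt Pt x z) := by
    filter_upwards [χ.eventuallyEq_one] with z hz
    rw [hz]; simp
  rw [df_congr h2]
  have h3 := hasMFDerivAt_extChartAt (I := 𝓘(ℝ, Pt)) (mem_chart_source Pt x)
  have h4 := h3.mfderiv.symm.trans (mfderiv_extChartAt_self (I := 𝓘(ℝ, Pt)) (x := x))
  rw [h4] at h3
  have h5 := (η.hasFDerivAt.hasMFDerivAt.comp x h3).mfderiv
  exact congrArg (fun L : Tan x →L[ℝ] ℝ => L u) h5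

theorem const_of_df [PreconnectedSpace M] {f : M → ℝ} (hf : Sm f) (h : ∀ x u, df f x u = 0)
    (x y : M) : f x = f y := by
  refine IsLocallyConstant.apply_eq_of_preconnectedSpace
    ((IsLocallyConstant.iff_eventually_eq f).2 fun p => ?_) x y
  obtain ⟨r, hr, hb⟩ := Metric.isOpen_iff.1 (chartAt Pt p).open_target _ (mem_chart_target Pt p)
  have h1 : ∀ z ∈ Metric.ball (chartAt Pt p p) r, fderiv ℝ (loc f p) z = 0 := fun z hz => by
    ext v
    have : v = ∑ a, v a • (Pi.single a 1 : Pt) := by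
      ext c; simp [Finset.sum_apply, Pi.single_apply]
    rw [this, map_sum]
    exact Finset.sum_eq_zero fun a _ => by
      have h2 := (df_frame hf p a (hb hz)).symm.trans (h _ _)
      unfold pd at h2
      rw [map_smul, h2, smul_zero]
  have h2 : ∀ z ∈ Metric.ball (chartAt Pt p p) r, loc f p z = loc f p (chartAt Pt p p) :=
    fun z hz => Metric.isOpen_ball.is_const_of_fderiv_eq_zero (𝕜 := ℝ)
      (convex_ball _ _).isPreconnected
      (fun w hw => (dif_tgt (sm_loc hf p) (hb hw)).differentiableWithinAt) h1 hz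
      (Metric.mem_ball_self hr)
  filter_upwards [(chartAt Pt p).open_source.mem_nhds (mem_chart_source Pt p),
    ((chartAt Pt p).continuousAt (mem_chart_source Pt p)).eventually
      (Metric.ball_mem_nhds _ hr)] with z hz hz'
  have := h2 _ hz'
  simpa [loc, (chartAt Pt p).left_inv hz] using this

end Pool.Agent.DonHK
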