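import Pool.Agent.Lib.MP_2710d6_gt.HK.Strict

open MeasureTheory Set Filter Topology Metric
open scoped Manifold ContDiff

namespace Pool.Agent.DonHK

theorem pd_lin {f g : Pt → ℝ} {y : Pt} (hf : DifferentiableAt ℝ f y)
    (hg : DifferentiableAt ℝ g y) (t : ℝ) (a : Fin 4) :
    pd a (fun y => f y + t * g y) y = pd a f y + t * pd a g y := by
  unfold pd
  rw [fderiv_fun_add hf (hg.const_mul t), fderiv_const_mul hg]
  simp

variable {M : Type*} [TopologicalSpace M] [ChartedSpace Pt M] {Ω : Fin 3 → Form2 M}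
  {ρ ζ : Form2 M}

theorem Exact.smul (h : Exact ζ) (t : ℝ) : Exact (t • ζ) := by
  obtain ⟨l, h1, h2, h3⟩ := h
  refine ⟨t • l, fun x u => ?_, fun p c => contDiffOn_const.mul (h2 p c), fun p a c y hy => ?_⟩
  · change t * ζ x u u = 0
    rw [h1 x u, mul_zero]
  have e : ∀ a c, pd a (co1 (t • l) p c) y = t * pd a (co1 l p c) y := fun a c => by
    change fderiv ℝ (fun y => t * co1 l p c y) y _ = _
    rw [fderiv_const_mul (dif_tgt (h2 p c) hy)]
    rfl
  rw [e, e]
  change t * co2 ζ p a c y = _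
  rw [h3 p a c y hy]
  ring

theorem Exact.closed (h : Exact ζ) : Closed2 ζ := by
  obtain ⟨l, hl⟩ := h
  have s := IsD.sm (l := l) hl
  refine ⟨s.1, s.2, fun p a c e y hy => ?_⟩
  have o := (chartAt Pt p).open_target
  have k : ∀ a c e, pd a (co2 ζ p c e) y =
      pd a (pd c (co1 l p e)) y - pd a (pd e (co1 l p c)) y := fun a c e => by
    have : co2 ζ p c e =ᶠ[𝓝 y] fun y => pd c (co1 l p e) y + (-1) * pd e (co1 l p c) y := by
      filter_upwards [o.mem_nhds hy] with z hz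
      rw [hl.2.2 p c e z hz]
      ring
    rw [pd_congr this, pd_lin (dif_tgt (pd_on o (hl.2.1 p e) c) hy)
      (dif_tgt (pd_on o (hl.2.1 p c) e) hy)]
    ring
  rw [k, k, k, pd_comm (at_tgt (hl.2.1 p e) hy) a c, pd_comm (at_tgt (hl.2.1 p c) hy) a e,
    pd_comm (at_tgt (hl.2.1 p a) hy) c e]
  ring

theorem Closed2.lin (h : Closed2 ρ) (k : Closed2 ζ) (t : ℝ) : Closed2 (ρ + t • ζ) := by
  have e : ∀ p a c, co2 (ρ + t • ζ) p a c = fun y => co2 ρ p a c y + t * co2 ζ p a c y :=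
    fun _ _ _ => rfl
  refine ⟨fun x u => ?_, fun p a c => ?_, fun p a c d y hy => ?_⟩
  · change ρ x u u + t * ζ x u u = 0
    rw [h.1 x u, k.1 x u]
    ring
  · rw [e]
    exact (h.2.1 p a c).add (contDiffOn_const.mul (k.2.1 p a c))
  · simp only [e, pd_lin (dif_tgt (h.2.1 p _ _) hy) (dif_tgt (k.2.1 p _ _) hy)]
    linear_combination h.2.2 p a c d y hy + t * k.2.2 p a c d y hy

variable [IsManifold 𝓘(ℝ, Pt) ∞ M] [MeasurableSpace M] {μ : Measure M} [CompactSpace M]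
  [BorelSpace M]

/-- A strict minimum of the energy in its class is a critical point. -/
theorem critical_of_min (h : IsHK Ω) (hμ : IsVol (Ω 0) μ) (hρ : Closed2 ρ)
    (hp : ∀ x, 0 < quot (Ω 0) ρ ρ x)
    (hm : ∀ σ : Form2 M, Closed2 σ → (∀ x, 0 < quot (Ω 0) σ σ x) → Exact (σ - ρ) → σ ≠ ρ →
      energy Ω μ ρ < energy Ω μ σ) : IsCritical Ω μ ρ := by
  intro ζ hζ
  have hc := hζ.closed
  have D := hasDerivAt_energy h hμ hρ.sm hp hc.sm
  have c0 := (sm_quot h.nd hρ.sm hρ.sm).continuous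
  have c1 := (sm_quot h.nd hc.sm hρ.sm).continuous
  have c2 := (sm_quot h.nd hc.sm hc.sm).continuous
  have ev : ∀ᶠ t in 𝓝 (0 : ℝ), ∀ x ∈ (univ : Set M), 0 < quot (Ω 0) ρ ρ x +
      t * (2 * quot (Ω 0) ζ ρ x) + t ^ 2 * quot (Ω 0) ζ ζ x :=
    isCompact_univ.eventually_forall_of_forall_eventually fun x _ =>
      (isOpen_lt (f := fun _ : ℝ × M => (0 : ℝ)) continuous_const (by fun_prop)).mem_nhds
        (by simpa using hp x)
  have L : IsLocalMin (fun t : ℝ => energy Ω μ (ρ + t • ζ)) 0 := by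
    filter_upwards [ev] with t ht
    rw [zero_smul, add_zero]
    by_cases e : ρ + t • ζ = ρ
    · rw [e]
    refine (hm _ (hρ.lin hc t) (fun x => ?_) ((add_sub_cancel_left ρ _).symm ▸ hζ.smul t) e).le
    convert ht x (mem_univ x) using 1
    rw [quot_add, quot_smul, quot_comm _ ρ, quot_comm _ ζ, quot_add, quot_smul, quot_add,
      quot_smul, quot_comm _ ρ ζ]
    ring
  exact L.hasDerivAt_eq_zero D ▸ D

end Pool.Agent.DonHK
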