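import Mathlib

open MeasureTheory
open scoped Manifold ContDiff

namespace Pool.Agent.DonHK

/-- The model space of a smooth four-manifold. -/
abbrev Pt := Fin 4 → ℝ

/-- The coefficient of `e_0 ∧ e_1 ∧ e_2 ∧ e_3` in `A ∧ B`, for `A = ∑_{a < c} A a c e_a ∧ e_c`. -/
def wedge (A B : Fin 4 → Fin 4 → ℝ) : ℝ :=
  A 0 1 * B 2 3 - A 0 2 * B 1 3 + A 0 3 * B 1 2 + A 2 3 * B 0 1 - A 1 3 * B 0 2 + A 1 2 * B 0 3

/-- The flat triple `e_0 e_1 + e_2 e_3`, `e_0 e_2 + e_3 e_1`, `e_0 e_3 + e_1 e_2`. -/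
def std : Fin 3 → Fin 4 → Fin 4 → ℝ :=
  ![![![0, 1, 0, 0], ![-1, 0, 0, 0], ![0, 0, 0, 1], ![0, 0, -1, 0]],
    ![![0, 0, 1, 0], ![0, 0, 0, -1], ![-1, 0, 0, 0], ![0, 1, 0, 0]],
    ![![0, 0, 0, 1], ![0, 0, 1, 0], ![0, -1, 0, 0], ![-1, 0, 0, 0]]]

section

variable {V : Type*} [AddCommGroup V] [Module ℝ V]

/-- The values of a linear form on four vectors. -/
def ev1 (l : V →ₗ[ℝ] ℝ) (v : Fin 4 → V) (c : Fin 4) : ℝ := l (v c)

/-- The values of a bilinear form on four vectors. -/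
def ev (B : LinearMap.BilinForm ℝ V) (v : Fin 4 → V) (a c : Fin 4) : ℝ := B (v a) (v c)

/-- The bilinear form `B + t C`. -/
def lin (B C : LinearMap.BilinForm ℝ V) (t : ℝ) : LinearMap.BilinForm ℝ V := B + t • C

/-- Three bilinear forms that are the flat triple in some basis. -/
def IsStd (B : Fin 3 → LinearMap.BilinForm ℝ V) : Prop :=
  ∃ v : Module.Basis (Fin 4) ℝ V, ∀ i, ev (B i) v = std i

end

/-- The differential of `f : E → M` at `y`, applied to `u`. -/
noncomputable def push {E M : Type*} [NormedAddCommGroup E] [NormedSpace ℝ E] [TopologicalSpace M]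
    [ChartedSpace E M] (f : E → M) (y u : E) : TangentSpace 𝓘(ℝ, E) (f y) :=
  mfderiv 𝓘(ℝ, E) 𝓘(ℝ, E) f y u

variable {M : Type*} [TopologicalSpace M] [ChartedSpace Pt M]

/-- The tangent space at `x`. -/
abbrev Tan (x : M) := TangentSpace 𝓘(ℝ, Pt) x

variable (M) in
/-- Fields of linear forms on the tangent spaces. -/
abbrev Form1 := ∀ x : M, Tan x →ₗ[ℝ] ℝ

variable (M) in
/-- Fields of bilinear forms on the tangent spaces. -/
abbrev Form2 := ∀ x : M, LinearMap.BilinForm ℝ (Tan x)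

/-- The derivative in the coordinate direction `a`. -/
noncomputable def pd (a : Fin 4) (f : Pt → ℝ) (y : Pt) : ℝ := fderiv ℝ f y (Pi.single a 1)

/-- The coordinate vector `∂ / ∂ y_a` of the chart at `p`, at the point with coordinates `y`. -/
noncomputable def frame (p : M) (y : Pt) (a : Fin 4) : Tan ((chartAt Pt p).symm y) :=
  push (chartAt Pt p).symm y (Pi.single a 1)

/-- The coefficients of a one-form in the chart at `p`. -/
noncomputable def co1 (l : Form1 M) (p : M) (c : Fin 4) (y : Pt) : ℝ := ev1 (l _) (frame p y) c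

/-- The coefficients of a two-form in the chart at `p`. -/
noncomputable def co2 (α : Form2 M) (p : M) (a c : Fin 4) (y : Pt) : ℝ :=
  ev (α _) (frame p y) a c

/-- `α` is a smooth closed two-form. -/
def Closed2 (α : Form2 M) : Prop :=
  (∀ x, (α x).IsAlt) ∧ (∀ p a c, ContDiffOn ℝ ∞ (co2 α p a c) (chartAt Pt p).target) ∧
    ∀ p a c e, ∀ y ∈ (chartAt Pt p).target,
      pd a (co2 α p c e) y - pd c (co2 α p a e) y + pd e (co2 α p a c) y = 0

/-- `ζ` is an exact two-form: `ζ = d l` for a smooth one-form `l`. -/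
def Exact (ζ : Form2 M) : Prop :=
  ∃ l : Form1 M, (∀ x, (ζ x).IsAlt) ∧
    (∀ p c, ContDiffOn ℝ ∞ (co1 l p c) (chartAt Pt p).target) ∧
    ∀ p a c, ∀ y ∈ (chartAt Pt p).target, co2 ζ p a c y = pd a (co1 l p c) y - pd c (co1 l p a) y

/-- The matrix of a two-form at `x` in the standard basis of the tangent space. -/
noncomputable def mat (α : Form2 M) (x : M) : Fin 4 → Fin 4 → ℝ :=
  ev (α x) fun a => (Pi.single a 1 : Pt)

/-- The function `(α ∧ β) / dvol`, where `dvol = Ω ∧ Ω / 2`. -/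
noncomputable def quot (Ω α β : Form2 M) (x : M) : ℝ :=
  wedge (mat α x) (mat β x) / (wedge (mat Ω x) (mat Ω x) / 2)

/-- A hyperkaehler structure: three closed two-forms that are, at every point, the flat triple in
some basis of the tangent space (an orthonormal basis for the hyperkaehler metric). -/
def IsHK (Ω : Fin 3 → Form2 M) : Prop :=
  (∀ i, Closed2 (Ω i)) ∧ ∀ x : M, IsStd fun i => Ω i x

variable [MeasurableSpace M]

/-- `μ` is the volume measure of `dvol = Ω ∧ Ω / 2`. -/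
def IsVol (Ω : Form2 M) (μ : Measure M) : Prop :=
  IsFiniteMeasure μ ∧ μ.IsOpenPosMeasure ∧
    ∀ (p : M) (F : M → ℝ), Continuous F → tsupport F ⊆ (chartAt Pt p).source →
      ∫ x, F x ∂μ = ∫ y in (chartAt Pt p).target, F ((chartAt Pt p).symm y) *
        |wedge (fun a c => co2 Ω p a c y) (fun a c => co2 Ω p a c y) / 2|

/-- Donaldson's energy `∫ 2 |ρ+|^2 / (|ρ+|^2 - |ρ-|^2) dvol` for the hyperkaehler metric:
`2 |ρ+|^2 = ∑ (ρ ∧ Ω_i / dvol)^2` and `|ρ+|^2 - |ρ-|^2 = ρ ∧ ρ / dvol`. -/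
noncomputable def energy (Ω : Fin 3 → Form2 M) (μ : Measure M) (ρ : Form2 M) : ℝ :=
  ∫ x, (∑ i, quot (Ω 0) ρ (Ω i) x ^ 2) / quot (Ω 0) ρ ρ x ∂μ

/-- `ρ` is a critical point of the energy in its cohomology class. -/
def IsCritical (Ω : Fin 3 → Form2 M) (μ : Measure M) (ρ : Form2 M) : Prop :=
  ∀ ζ : Form2 M, Exact ζ → HasDerivAt (fun t : ℝ => energy Ω μ fun x => lin (ρ x) (ζ x) t) 0 0

end Pool.Agent.DonHK
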