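import Pool.Agent.Lib.MP_2710d6_gt.HK.Defs

open MeasureTheory Set
open scoped Manifold ContDiff

namespace Pool.Agent.DonHK

def dt (m : Fin 4 → Fin 4 → ℝ) : ℝ :=
  (m 0 0 * m 1 1 - m 0 1 * m 1 0) * (m 2 2 * m 3 3 - m 2 3 * m 3 2) -
  (m 0 0 * m 1 2 - m 0 2 * m 1 0) * (m 2 1 * m 3 3 - m 2 3 * m 3 1) +
  (m 0 0 * m 1 3 - m 0 3 * m 1 0) * (m 2 1 * m 3 2 - m 2 2 * m 3 1) +
  (m 0 1 * m 1 2 - m 0 2 * m 1 1) * (m 2 0 * m 3 3 - m 2 3 * m 3 0) -
  (m 0 1 * m 1 3 - m 0 3 * m 1 1) * (m 2 0 * m 3 2 - m 2 2 * m 3 0) +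
  (m 0 2 * m 1 3 - m 0 3 * m 1 2) * (m 2 0 * m 3 1 - m 2 1 * m 3 0)

theorem ev_exp {V : Type*} [AddCommGroup V] [Module ℝ V] {B : LinearMap.BilinForm ℝ V}
    (hB : B.IsAlt) (e : Fin 4 → V) (r s : Fin 4 → ℝ) :
    B (∑ i, r i • e i) (∑ i, s i • e i) =
      (r 0 * s 1 - r 1 * s 0) * B (e 0) (e 1) + (r 0 * s 2 - r 2 * s 0) * B (e 0) (e 2) +
      (r 0 * s 3 - r 3 * s 0) * B (e 0) (e 3) + (r 1 * s 2 - r 2 * s 1) * B (e 1) (e 2) +
      (r 1 * s 3 - r 3 * s 1) * B (e 1) (e 3) + (r 2 * s 3 - r 3 * s 2) * B (e 2) (e 3) := by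
  simp only [Fin.sum_univ_four, map_add, map_smul, LinearMap.add_apply, LinearMap.smul_apply,
    smul_eq_mul, hB.self_eq_zero]
  rw [← hB.neg_eq (e 0) (e 1), ← hB.neg_eq (e 0) (e 2), ← hB.neg_eq (e 0) (e 3),
    ← hB.neg_eq (e 1) (e 2), ← hB.neg_eq (e 1) (e 3), ← hB.neg_eq (e 2) (e 3)]
  ring

theorem wedge_ev {V : Type*} [AddCommGroup V] [Module ℝ V] {B C : LinearMap.BilinForm ℝ V}
    (hB : B.IsAlt) (hC : C.IsAlt) (e v : Fin 4 → V) (m : Fin 4 → Fin 4 → ℝ)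
    (h : ∀ a, v a = ∑ i, m a i • e i) :
    wedge (ev B v) (ev C v) = dt m * wedge (ev B e) (ev C e) := by
  simp only [wedge, ev, h, ev_exp hB, ev_exp hC, dt]
  ring

variable {M : Type*} [TopologicalSpace M] [ChartedSpace Pt M]

noncomputable def eb (x : M) (a : Fin 4) : Tan x := (Pi.single a 1 : Pt)

theorem eb_sum (x : M) (u : Tan x) : u = ∑ i, (u : Pt) i • eb x i := by
  have : ∀ w : Pt, w = ∑ i, w i • (Pi.single i 1 : Pt) := fun w => by
    ext c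
    simp [Finset.sum_apply, Pi.single_apply]
  exact this u

theorem wedge_fr {x : M} {B C : LinearMap.BilinForm ℝ (Tan x)} (hB : B.IsAlt) (hC : C.IsAlt)
    (v : Fin 4 → Tan x) :
    wedge (ev B v) (ev C v) = dt (fun a i => (v a : Pt) i) * wedge (ev B (eb x)) (ev C (eb x)) :=
  wedge_ev hB hC _ _ _ fun a => eb_sum x (v a)

theorem quot_ev {Ω α β : Form2 M} {x : M} (hΩ : (Ω x).IsAlt) (hα : (α x).IsAlt)
    (hβ : (β x).IsAlt) (v : Fin 4 → Tan x) (h0 : dt (fun a i => (v a : Pt) i) ≠ 0) :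
    quot Ω α β x = wedge (ev (α x) v) (ev (β x) v) / (wedge (ev (Ω x) v) (ev (Ω x) v) / 2) := by
  rw [wedge_fr hα hβ, wedge_fr hΩ hΩ, mul_div_assoc (dt _) _ 2, mul_div_mul_left _ _ h0]
  rfl

/-- The wedge product of two one-forms. -/
noncomputable def w11 (l m : Form1 M) : Form2 M := fun x =>
  (LinearMap.mul ℝ ℝ).compl₁₂ (l x) (m x) - (LinearMap.mul ℝ ℝ).compl₁₂ (m x) (l x)

theorem w11_apply (l m : Form1 M) (x : M) (u v : Tan x) :
    w11 l m x u v = l x u * m x v - m x u * l x v := rfl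

theorem w11_alt (l m : Form1 M) (x : M) : (w11 l m x).IsAlt := fun u => by
  rw [w11_apply]; ring

theorem quot_add (Ω α α' β : Form2 M) (x : M) :
    quot Ω (α + α') β x = quot Ω α β x + quot Ω α' β x := by
  simp only [quot, wedge, mat, ev, Pi.add_apply, LinearMap.add_apply]
  ring

theorem quot_sub (Ω α α' β : Form2 M) (x : M) :
    quot Ω (α - α') β x = quot Ω α β x - quot Ω α' β x := by
  simp only [quot, wedge, mat, ev, Pi.sub_apply, LinearMap.sub_apply]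
  ring

theorem quot_smul (Ω α β : Form2 M) (t : ℝ) (x : M) :
    quot Ω (t • α) β x = t * quot Ω α β x := by
  simp only [quot, wedge, mat, ev, Pi.smul_apply, LinearMap.smul_apply, smul_eq_mul]
  ring

theorem quot_comm (Ω α β : Form2 M) (x : M) : quot Ω α β x = quot Ω β α x := by
  simp only [quot, wedge]
  ring

theorem quot_fsmul (Ω α β : Form2 M) (f : M → ℝ) (x : M) :
    quot Ω (fun x => f x • α x) β x = f x * quot Ω α β x := by
  simp only [quot, wedge, mat, ev, LinearMap.smul_apply, smul_eq_mul]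
  ring

theorem quot_zero (Ω β : Form2 M) {α : Form2 M} {x : M} (h : α x = 0) : quot Ω α β x = 0 := by
  simp [quot, wedge, mat, ev, h]

theorem quot_w11 (Ω τ : Form2 M) {l l1 l2 : Form1 M} (m : Form1 M) {x : M} (s t : ℝ)
    (h : ∀ u, l x u = s * l1 x u + t * l2 x u) :
    quot Ω (w11 l m) τ x = s * quot Ω (w11 l1 m) τ x + t * quot Ω (w11 l2 m) τ x := by
  simp only [quot, wedge, mat, ev, w11_apply, h]
  ring

end Pool.Agent.DonHK
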