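import Pool.Agent.Lib.MP_2710d6_gt.HK.Var
import Pool.Agent.Lib.MP_2710d6_gt.Core

open MeasureTheory Set Filter Topology Metric
open scoped Manifold ContDiff

namespace Pool.Agent.DonHK

open Pool.Agent.Don (om0 om1 om2 fue wed nsq alg1 alg2 nsq_nonneg nsq_zero)

variable {M : Type*} [TopologicalSpace M] [ChartedSpace Pt M] [IsManifold 𝓘(ℝ, Pt) ∞ M]
  [MeasurableSpace M] {μ : Measure M} [CompactSpace M] [BorelSpace M] [T2Space M]
  {Ω : Fin 3 → Form2 M} {ρ ζ τ : Form2 M} {f g : M → ℝ}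

/-- Smooth functions with integral zero. -/
def Nul (μ : Measure M) (f : M → ℝ) : Prop := Sm f ∧ Integrable f μ ∧ ∫ x, f x ∂μ = 0

section
omit [IsManifold 𝓘(ℝ, Pt) ∞ M] [CompactSpace M] [BorelSpace M] [T2Space M]

theorem Nul.add (h : Nul μ f) (k : Nul μ g) : Nul μ fun x => f x + g x :=
  ⟨h.1.add k.1, h.2.1.add k.2.1, by rw [integral_add h.2.1 k.2.1, h.2.2, k.2.2, add_zero]⟩
theorem Nul.sub (h : Nul μ f) (k : Nul μ g) : Nul μ fun x => f x - g x :=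
  ⟨h.1.sub k.1, h.2.1.sub k.2.1, by rw [integral_sub h.2.1 k.2.1, h.2.2, k.2.2, sub_zero]⟩
theorem Nul.cmul (c : ℝ) (h : Nul μ f) : Nul μ fun x => c * f x :=
  ⟨contMDiff_const.mul h.1, h.2.1.const_mul c, by rw [integral_const_mul, h.2.2, mul_zero]⟩

end

omit [IsManifold 𝓘(ℝ, Pt) ∞ M] [CompactSpace M] [T2Space M] [BorelSpace M] in
theorem Nul.eq_zero (hμ : IsVol τ μ) (h : Nul μ f) (h0 : ∀ x, 0 ≤ f x) (x : M) : f x = 0 := by
  have := hμ.2.1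
  exact congrFun ((Continuous.ae_eq_iff_eq μ h.1.continuous continuous_zero).1
    ((integral_eq_zero_iff_of_nonneg h0 h.2.1).1 h.2.2)) x

theorem nul_exact (h : IsHK Ω) (hμ : IsVol (Ω 0) μ) (hζ : Exact ζ) (hτ : Closed2 τ) :
    Nul μ (quot (Ω 0) ζ τ) := by
  obtain ⟨l, hl⟩ := hζ
  have s := sm_quot h.nd (IsD.sm hl) hτ.sm
  exact ⟨s, hμ.int s.continuous, stokes h.nd hμ hl hτ⟩

theorem nul_jac (h : IsHK Ω) (hμ : IsVol (Ω 0) μ) (hf : Sm f) (hg : Sm g) (hτ : Closed2 τ) :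
    Nul μ (quot (Ω 0) (w11 (df f) (df g)) τ) := nul_exact h hμ ⟨_, isD_w11 hf hg⟩ hτ

theorem euler (h : IsHK Ω) (hμ : IsVol (Ω 0) μ) (hρ : Closed2 ρ)
    (hp : ∀ x, 0 < quot (Ω 0) ρ ρ x) (hc : IsCritical Ω μ ρ) (hg : Sm g) (x : M) :
    quot (Ω 0) (w11 (df (kk Ω ρ 0)) (df g)) (Ω 0) x +
      quot (Ω 0) (w11 (df (kk Ω ρ 1)) (df g)) (Ω 1) x +
      quot (Ω 0) (w11 (df (kk Ω ρ 2)) (df g)) (Ω 2) x -
      quot (Ω 0) (w11 (df (nn Ω ρ)) (df g)) ρ x = 0 := by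
  have sk := sm_kk h hρ.sm hp
  have sn := sm_nn h hρ.sm hp
  have sH : Sm _ := (((nul_jac h hμ (sk 0) hg (h.1 0)).add (nul_jac h hμ (sk 1) hg (h.1 1))).add
    (nul_jac h hμ (sk 2) hg (h.1 2))).sub (nul_jac h hμ sn hg hρ) |>.1
  set H := fun x => quot (Ω 0) (w11 (df (kk Ω ρ 0)) (df g)) (Ω 0) x +
      quot (Ω 0) (w11 (df (kk Ω ρ 1)) (df g)) (Ω 1) x +
      quot (Ω 0) (w11 (df (kk Ω ρ 2)) (df g)) (Ω 2) x -
      quot (Ω 0) (w11 (df (nn Ω ρ)) (df g)) ρ x with hH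
  have j := fun i => (nul_jac h hμ sH hg (h.1 i)).1
  have s1 : Sm _ := (contMDiff_const (c := (2 : ℝ))).mul (((((sk 0).mul (j 0)).add
    ((sk 1).mul (j 1))).add ((sk 2).mul (j 2))).sub (sn.mul (nul_jac h hμ sH hg hρ).1))
  have N1 : Nul μ _ := ⟨s1, hμ.int s1.continuous,
    (hasDerivAt_energy h hμ hρ.sm hp (isD_w11 sH hg).sm).unique (hc _ ⟨_, isD_w11 sH hg⟩)⟩
  have m : ∀ {k : M → ℝ}, Sm k → Sm fun x => k x * H x := fun hk => hk.mul sH
  have N2 := (((((nul_jac h hμ (m (sk 0)) hg (h.1 0)).add (nul_jac h hμ (m (sk 1)) hg (h.1 1))).add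
    (nul_jac h hμ (m (sk 2)) hg (h.1 2))).sub (nul_jac h hμ (m sn) hg hρ)).cmul 2).sub N1
  have e : ∀ {k : M → ℝ}, Sm k → ∀ τ y, quot (Ω 0) (w11 (df fun x => k x * H x) (df g)) τ y =
      k y * quot (Ω 0) (w11 (df H) (df g)) τ y + H y * quot (Ω 0) (w11 (df k) (df g)) τ y :=
    fun hk τ y => quot_w11 _ _ _ _ _ (df_mul hk sH y)
  have N3 : Nul μ fun x => 2 * (H x * H x) := by
    convert N2 using 2 with y
    rw [e (sk 0), e (sk 1), e (sk 2), e sn]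
    simp only [Pi.mul_apply, Pi.add_apply]
    rw [show H y * H y = H y * _ from congrArg _ (congrFun hH y)]
    ring
  have := N3.eq_zero hμ (fun x => mul_nonneg two_pos.le (mul_self_nonneg _)) x
  exact mul_self_eq_zero.1 (by linarith)

theorem kk_const [PreconnectedSpace M] (h : IsHK Ω) (hμ : IsVol (Ω 0) μ) (hρ : Closed2 ρ)
    (hp : ∀ x, 0 < quot (Ω 0) ρ ρ x) (hc : IsCritical Ω μ ρ) (i : Fin 3) (x y : M) :
    kk Ω ρ i x = kk Ω ρ i y := by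
  have sk := sm_kk h hρ.sm hp
  have sn := sm_nn h hρ.sm hp
  obtain ⟨C, hC⟩ := isCompact_univ.exists_bound_of_continuousOn
    (sm_quot h.nd hρ.sm hρ.sm).continuous.continuousOn
  have sc : Sm fun x => -C * nn Ω ρ x := contMDiff_const.mul sn
  set φ := fun x => Real.exp (-C * nn Ω ρ x) with hφ
  have sφ : Sm φ := sm_exp sc
  have m : ∀ i, Sm fun x => φ x * kk Ω ρ i x := fun i => sφ.mul (sk i)
  have J := fun i j l => nul_jac h hμ (m i) (sk j) (h.1 l)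
  have N := ((((J 0 1 2).sub (J 1 0 2)).add ((J 1 2 0).sub (J 2 1 0))).add
    ((J 2 0 1).sub (J 0 2 1))).cmul (-1)
  have dn : ∀ x u, df (nn Ω ρ) x u = 2 * (kk Ω ρ 0 x * df (kk Ω ρ 0) x u +
      kk Ω ρ 1 x * df (kk Ω ρ 1) x u + kk Ω ρ 2 x * df (kk Ω ρ 2) x u) := fun x u => by
    have q : ∀ i, Sm fun x => kk Ω ρ i x * kk Ω ρ i x := fun i => (sk i).mul (sk i)
    have q' : Sm fun x => kk Ω ρ 0 x * kk Ω ρ 0 x + kk Ω ρ 1 x * kk Ω ρ 1 x := (q 0).add (q 1)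
    unfold nn
    rw [df_add q' (q 2), df_add (q 0) (q 1), df_mul (sk 0) (sk 0), df_mul (sk 1) (sk 1),
      df_mul (sk 2) (sk 2)]
    ring
  have hd : ∀ i x u, df (fun x => φ x * kk Ω ρ i x) x u = φ x * (2 * -C *
      (kk Ω ρ 0 x * df (kk Ω ρ 0) x u + kk Ω ρ 1 x * df (kk Ω ρ 1) x u +
        kk Ω ρ 2 x * df (kk Ω ρ 2) x u) * kk Ω ρ i x + df (kk Ω ρ i) x u) := fun i x u => by
    rw [df_mul sφ (sk i), hφ, df_exp sc, df_mul contMDiff_const sn, df_const, dn]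
    ring
  choose v hv h0 hq using h.pt
  have o0 : ∀ (l m : Form1 M) x, quot (Ω 0) (w11 l m) (Ω 0) x =
      om0 1 (fun a => l x (v x a)) (fun a => m x (v x a)) := fun l m x => by
    rw [hq x _ _ (w11_alt _ _ x) ((h.1 0).1 x), hv, wedge_std0]
    simp only [ev, w11_apply, om0]; ring
  have o1 : ∀ (l m : Form1 M) x, quot (Ω 0) (w11 l m) (Ω 1) x =
      om1 1 (fun a => l x (v x a)) (fun a => m x (v x a)) := fun l m x => by
    rw [hq x _ _ (w11_alt _ _ x) ((h.1 1).1 x), hv, wedge_std1]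
    simp only [ev, w11_apply, om1]; ring
  have o2 : ∀ (l m : Form1 M) x, quot (Ω 0) (w11 l m) (Ω 2) x =
      om2 1 (fun a => l x (v x a)) (fun a => m x (v x a)) := fun l m x => by
    rw [hq x _ _ (w11_alt _ _ x) ((h.1 2).1 x), hv, wedge_std2]
    simp only [ev, w11_apply, om2]; ring
  let p : Fin 3 → M → Fin 4 → ℝ := fun i x a => df (kk Ω ρ i) x (v x a)
  have hV : ∀ x c, fue 1 (p 0 x) (p 1 x) (p 2 x) c = 2 * wed (fun a => kk Ω ρ 0 x * p 0 x a +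
      kk Ω ρ 1 x * p 1 x a + kk Ω ρ 2 x * p 2 x a) (ev (ρ x) (v x)) c := fun x c => by
    obtain ⟨g, hg, hg'⟩ := exists_df x ((v x).coord c)
    have E := euler h hμ hρ hp hc hg x
    rw [o0, o1, o2, hq x _ _ (w11_alt _ _ x) (hρ.1 x)] at E
    simp only [om0, om1, om2, wedge, ev, w11_apply, hg', dn, Module.Basis.coord_apply,
      Module.Basis.repr_self, Finsupp.single_apply] at E
    fin_cases c
    · change fue _ _ _ _ 0 = 2 * wed _ _ 0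
      simp only [fue, wed, ev, p, Matrix.cons_val_zero]
      simp at E
      linear_combination E
    · change fue _ _ _ _ 1 = 2 * wed _ _ 1
      simp only [fue, wed, ev, p, Matrix.cons_val_zero, Matrix.cons_val_one]
      simp at E
      linear_combination E
    · change fue _ _ _ _ 2 = 2 * wed _ _ 2
      simp only [fue, wed, ev, p, Matrix.cons_val]
      simp at E
      linear_combination E
    · change fue _ _ _ _ 3 = 2 * wed _ _ 3
      simp only [fue, wed, ev, p, Matrix.cons_val]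
      simp at E
      linear_combination E
  have key : ∀ x, φ x * (nsq (p 0 x) + nsq (p 1 x) + nsq (p 2 x)) ≤ -1 *
      (quot (Ω 0) (w11 (df fun x => φ x * kk Ω ρ 0 x) (df (kk Ω ρ 1))) (Ω 2) x -
        quot (Ω 0) (w11 (df fun x => φ x * kk Ω ρ 1 x) (df (kk Ω ρ 0))) (Ω 2) x +
      (quot (Ω 0) (w11 (df fun x => φ x * kk Ω ρ 1 x) (df (kk Ω ρ 2))) (Ω 0) x -
        quot (Ω 0) (w11 (df fun x => φ x * kk Ω ρ 2 x) (df (kk Ω ρ 1))) (Ω 0) x) +
      (quot (Ω 0) (w11 (df fun x => φ x * kk Ω ρ 2 x) (df (kk Ω ρ 0))) (Ω 1) x -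
        quot (Ω 0) (w11 (df fun x => φ x * kk Ω ρ 0 x) (df (kk Ω ρ 2))) (Ω 1) x)) := by
    intro x
    rw [o0, o0, o1, o1, o2, o2, alg1 (Or.inl rfl) (kk Ω ρ 0 x) (kk Ω ρ 1 x) (kk Ω ρ 2 x) (φ x) (-C)
      (p 0 x) (p 1 x) (p 2 x) _ _ _ _ (fun _ => rfl) (fun a => hd 0 x _) (fun a => hd 1 x _)
      (fun a => hd 2 x _)]
    have u0 := hp x
    have k : ∀ i, 2 * (quot (Ω 0) ρ ρ x / 2) * kk Ω ρ i x = wedge (ev (ρ x) (v x)) (std i) :=
      fun i => by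
        rw [← hv, ← hq x _ _ (hρ.1 x) ((h.1 i).1 x), kk]
        field_simp
    have e := alg2 (w := quot (Ω 0) ρ ρ x / 2) (Or.inl rfl) _ _
      ((k 0).trans ((wedge_std0 _).trans (by ring))) ((k 1).trans ((wedge_std1 _).trans (by ring)))
      ((k 2).trans ((wedge_std2 _).trans (by ring)))
      (by rw [hq x _ _ (hρ.1 x) (hρ.1 x)]; simp only [wedge, Don.pf]; ring) (hV x)
    refine mul_le_mul_of_nonneg_left ?_ (Real.exp_pos _).le
    have hn := nsq_nonneg (fue 1 (p 0 x) (p 1 x) (p 2 x))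
    have hC' : quot (Ω 0) ρ ρ x ≤ C := (le_abs_self _).trans (hC x (mem_univ x))
    generalize nsq (fue 1 (p 0 x) (p 1 x) (p 2 x)) = n at *
    generalize kk Ω ρ 0 x * om0 1 _ _ + kk Ω ρ 1 x * om1 1 _ _ + kk Ω ρ 2 x * om2 1 _ _ - nsq _ = T
      at *
    generalize quot (Ω 0) ρ ρ x = u at *
    have hT : 0 ≤ T := nonneg_of_mul_nonneg_right (e ▸ hn) (by positivity)
    nlinarith [mul_nonneg hT (sub_nonneg.2 hC')]
  have pos : ∀ x, 0 < φ x := fun x => Real.exp_pos _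
  have nn' : ∀ x, 0 ≤ nsq (p 0 x) + nsq (p 1 x) + nsq (p 2 x) := fun x =>
    add_nonneg (add_nonneg (nsq_nonneg _) (nsq_nonneg _)) (nsq_nonneg _)
  have Z := N.eq_zero hμ fun x => (mul_nonneg (pos x).le (nn' x)).trans (key x)
  have z : ∀ x, nsq (p 0 x) + nsq (p 1 x) + nsq (p 2 x) ≤ 0 := fun x =>
    nonpos_of_mul_nonpos_right ((key x).trans (Z x).le) (pos x)
  have z' : ∀ x, nsq (p i x) ≤ 0 := fun x => by
    have := z x
    have := nsq_nonneg (p 0 x)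
    have := nsq_nonneg (p 1 x)
    have := nsq_nonneg (p 2 x)
    fin_cases i
    · change nsq (p 0 x) ≤ 0
      linarith
    · change nsq (p 1 x) ≤ 0
      linarith
    · change nsq (p 2 x) ≤ 0
      linarith
  refine const_of_df (sk i) (fun x u => ?_) x y
  have : df (kk Ω ρ i) x = 0 := (v x).ext fun a => nsq_zero (z' x) a
  rw [this]; rfl

theorem main [ConnectedSpace M] (h : IsHK Ω) (hμ : IsVol (Ω 0) μ) (hρ : Closed2 ρ)
    (hp : ∀ x, 0 < quot (Ω 0) ρ ρ x) : IsCritical Ω μ ρ ↔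
      ∃ c : Fin 3 → ℝ, ∀ i x, quot (Ω 0) ρ (Ω i) x = c i * quot (Ω 0) ρ ρ x := by
  constructor
  · intro hc
    obtain ⟨y⟩ : Nonempty M := inferInstance
    refine ⟨fun i => kk Ω ρ i y, fun i x => ?_⟩
    beta_reduce
    rw [← kk_const h hμ hρ hp hc i x y, kk, div_mul_cancel₀ _ (hp x).ne']
  · rintro ⟨c, hc⟩ ζ hζ
    have k : ∀ i x, kk Ω ρ i x = c i := fun i x => by
      rw [kk, hc, mul_div_cancel_right₀ _ (hp x).ne']
    have n := fun i => (nul_exact h hμ hζ (h.1 i)).cmul (c i)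
    have N := ((((n 0).add (n 1)).add (n 2)).sub
      ((nul_exact h hμ hζ hρ).cmul (c 0 * c 0 + c 1 * c 1 + c 2 * c 2))).cmul 2
    obtain ⟨l, hl⟩ := hζ
    have d := hasDerivAt_energy h hμ hρ.sm hp (IsD.sm hl)
    simp only [nn, k] at d
    rwa [N.2.2] at d

theorem unique [ConnectedSpace M] (h : IsHK Ω) (hμ : IsVol (Ω 0) μ) (hρ : Closed2 ρ)
    (hp : ∀ x, 0 < quot (Ω 0) ρ ρ x) (he : Exact (ρ - Ω 0)) : IsCritical Ω μ ρ ↔ ρ = Ω 0 := by
  choose v hv h0 hq using h.pt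
  have q0 : ∀ x, quot (Ω 0) (Ω 0) (Ω 0) x = 2 := fun x => by
    rw [hq x _ _ ((h.1 0).1 x) ((h.1 0).1 x), hv, wedge_std0]; exact one_add_one_eq_two
  have q1 : ∀ x, quot (Ω 0) (Ω 0) (Ω 1) x = 0 := fun x => by
    rw [hq x _ _ ((h.1 0).1 x) ((h.1 1).1 x), hv, hv, wedge_std1]; exact sub_self _
  have q2 : ∀ x, quot (Ω 0) (Ω 0) (Ω 2) x = 0 := fun x => by
    rw [hq x _ _ ((h.1 0).1 x) ((h.1 2).1 x), hv, hv, wedge_std2]; exact add_zero _
  rw [main h hμ hρ hp]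
  refine ⟨fun ⟨c, hc⟩ => ?_, fun e => ⟨![1, 0, 0], fun i x => ?_⟩⟩
  swap
  · rw [e]
    fin_cases i <;> simp [q0, q1, q2]
  have n := fun i => nul_exact h hμ he (h.1 i)
  have NU : Nul μ fun x => quot (Ω 0) ρ ρ x - 2 := by
    convert (nul_exact h hμ he hρ).add (n 0) using 2 with x
    rw [quot_sub, quot_sub, q0, quot_comm _ (Ω 0) ρ]
    ring
  obtain ⟨y⟩ : Nonempty M := inferInstance
  have cz : ∀ a : ℝ, (Nul μ fun _ : M => a) → a = 0 := fun a N =>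
    mul_self_eq_zero.1 ((N.cmul a).eq_zero hμ (fun _ => mul_self_nonneg a) y)
  have c0 : 2 * c 0 - 2 = 0 := cz _ (by
    convert (n 0).sub (NU.cmul (c 0)) using 2 with x
    rw [quot_sub, hc, q0]; ring)
  have c1 : 2 * c 1 = 0 := cz _ (by
    convert (n 1).sub (NU.cmul (c 1)) using 2 with x
    rw [quot_sub, hc, q1]; ring)
  have c2 : 2 * c 2 = 0 := cz _ (by
    convert (n 2).sub (NU.cmul (c 2)) using 2 with x
    rw [quot_sub, hc, q2]; ring)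
  have P : ∀ x, ev (ρ x) (v x) 0 1 + ev (ρ x) (v x) 2 3 = quot (Ω 0) ρ ρ x ∧
      ev (ρ x) (v x) 0 2 - ev (ρ x) (v x) 1 3 = 0 ∧ ev (ρ x) (v x) 0 3 + ev (ρ x) (v x) 1 2 = 0 ∧
      quot (Ω 0) ρ ρ x = wedge (ev (ρ x) (v x)) (ev (ρ x) (v x)) := fun x => by
    have k : ∀ i, wedge (ev (ρ x) (v x)) (std i) = c i * quot (Ω 0) ρ ρ x := fun i => by
      rw [← hv, ← hq x _ _ (hρ.1 x) ((h.1 i).1 x), hc]
    refine ⟨?_, ?_, ?_, hq x _ _ (hρ.1 x) (hρ.1 x)⟩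
    · rw [← wedge_std0, k, show c 0 = 1 by linarith, one_mul]
    · rw [← wedge_std1, k, show c 1 = 0 by linarith, zero_mul]
    · rw [← wedge_std2, k, show c 2 = 0 by linarith, zero_mul]
  have S : ∀ x, quot (Ω 0) ρ ρ x * (quot (Ω 0) ρ ρ x - 2) =
      (ev (ρ x) (v x) 0 1 - ev (ρ x) (v x) 2 3) ^ 2 + (2 * ev (ρ x) (v x) 0 2) ^ 2 +
        (2 * ev (ρ x) (v x) 0 3) ^ 2 := fun x => by
    obtain ⟨a, b, c, d⟩ := P x
    generalize ev (ρ x) (v x) = A at *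
    generalize quot (Ω 0) ρ ρ x = u at *
    unfold wedge at d
    linear_combination -(u + A 0 1 + A 2 3) * a - 2 * d - 4 * A 0 2 * b - 4 * A 0 3 * c
  have Z := NU.eq_zero hμ fun x =>
    nonneg_of_mul_nonneg_right ((S x).symm ▸ by positivity) (hp x)
  funext x
  obtain ⟨a, b, c, -⟩ := P x
  have s := S x
  have z := Z x
  rw [z, mul_zero] at s
  have e : ∀ a c, ev (ρ x) (v x) c a = -ev (ρ x) (v x) a c := fun a c =>
    ((hρ.1 x).neg_eq _ _).symm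
  have d : ∀ a, ev (ρ x) (v x) a a = 0 := fun a => hρ.1 x _
  have e1 : ev (ρ x) (v x) 0 1 - ev (ρ x) (v x) 2 3 = 0 := by
    nlinarith [sq_nonneg (2 * ev (ρ x) (v x) 0 2), sq_nonneg (2 * ev (ρ x) (v x) 0 3)]
  have e2 : ev (ρ x) (v x) 0 2 = 0 := by
    nlinarith [sq_nonneg (ev (ρ x) (v x) 0 1 - ev (ρ x) (v x) 2 3),
      sq_nonneg (2 * ev (ρ x) (v x) 0 3)]
  have e3 : ev (ρ x) (v x) 0 3 = 0 := by
    nlinarith [sq_nonneg (ev (ρ x) (v x) 0 1 - ev (ρ x) (v x) 2 3),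
      sq_nonneg (2 * ev (ρ x) (v x) 0 2)]
  have f01 : ev (ρ x) (v x) 0 1 = 1 := by linarith
  have f23 : ev (ρ x) (v x) 2 3 = 1 := by linarith
  have f13 : ev (ρ x) (v x) 1 3 = 0 := by linarith
  have f12 : ev (ρ x) (v x) 1 2 = 0 := by linarith
  have g : ∀ {a c} {r : ℝ}, ev (ρ x) (v x) a c = r → ev (ρ x) (v x) c a = -r := fun k => by
    rw [e, k]
  have g0 : ∀ {a c}, ev (ρ x) (v x) a c = 0 → ev (ρ x) (v x) c a = 0 := fun k =>
    (g k).trans neg_zero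
  refine LinearMap.BilinForm.ext_basis (v x) fun a c => ?_
  change ev (ρ x) (v x) a c = ev (Ω 0 x) (v x) a c
  rw [hv]
  fin_cases a <;> fin_cases c
  exacts [d 0, f01, e2, e3, g f01, d 1, f12, f13, g0 e2, g0 f12, d 2, f23, g0 e3, g0 f13, g f23,
    d 3]

end Pool.Agent.DonHK
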