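import Pool.Agent.Lib.MP_2710d6_gt.HK.Chart

open MeasureTheory Set Filter Topology
open scoped Manifold ContDiff

namespace Pool.Agent.DonHK

/-- Integrable on `W` with integral zero. -/
def NulOn (W : Set Pt) (f : Pt → ℝ) : Prop := IntegrableOn f W ∧ ∫ y in W, f y = 0

theorem NulOn.add {W : Set Pt} {f g : Pt → ℝ} (h : NulOn W f) (k : NulOn W g) :
    NulOn W fun y => f y + g y := ⟨h.1.add k.1, by rw [integral_add h.1 k.1, h.2, k.2, add_zero]⟩

theorem NulOn.sub {W : Set Pt} {f g : Pt → ℝ} (h : NulOn W f) (k : NulOn W g) :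
    NulOn W fun y => f y - g y := ⟨h.1.sub k.1, by rw [integral_sub h.1 k.1, h.2, k.2, sub_zero]⟩

theorem NulOn.congr {W : Set Pt} (hW : IsOpen W) {f g : Pt → ℝ} (h : NulOn W f)
    (e : ∀ y ∈ W, f y = g y) : NulOn W g :=
  ⟨h.1.congr_fun e hW.measurableSet, (setIntegral_congr_fun hW.measurableSet e).symm.trans h.2⟩

theorem nulOn_pd {W K : Set Pt} (hW : IsOpen W) (hK : IsCompact K) (hKW : K ⊆ W) {Y : Pt → ℝ}
    (hY : ContDiffOn ℝ ∞ Y W) (h0 : ∀ y ∈ W, y ∉ K → Y y = 0) (a : Fin 4) : NulOn W (pd a Y) := by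
  have e1 : ∀ y ∈ W, W.indicator Y =ᶠ[𝓝 y] Y := fun y hy => by
    filter_upwards [hW.mem_nhds hy] with z hz using indicator_of_mem hz _
  have e0 : ∀ y, y ∉ K → W.indicator Y y = 0 := fun y hy => by
    by_cases h : y ∈ W
    · rw [indicator_of_mem h, h0 y h hy]
    · exact indicator_of_notMem h _
  have e2 : ∀ y, y ∉ K → W.indicator Y =ᶠ[𝓝 y] fun _ => 0 := fun y hy => by
    filter_upwards [hK.isClosed.isOpen_compl.mem_nhds hy] with z hz using e0 z hz
  have hs : ContDiff ℝ ∞ (W.indicator Y) := contDiff_iff_contDiffAt.2 fun y => by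
    by_cases h : y ∈ K
    · exact (hY.contDiffAt (hW.mem_nhds (hKW h))).congr_of_eventuallyEq (e1 y (hKW h))
    · exact contDiffAt_const.congr_of_eventuallyEq (e2 y h)
  have hc : HasCompactSupport (W.indicator Y) := HasCompactSupport.intro hK e0
  have z : ∀ y, y ∉ K → pd a (W.indicator Y) y = 0 := fun y hy => by
    rw [pd_congr (e2 y hy)]; simp [pd]
  have hi : Integrable (pd a (W.indicator Y)) :=
    (contDiffOn_univ.1 (pd_on isOpen_univ hs.contDiffOn a)).continuous.integrable_of_hasCompactSupport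
      (HasCompactSupport.intro hK z)
  have h1 := integral_mul_fderiv_eq_neg_fderiv_mul_of_integrable (μ := (volume : Measure Pt))
    (f := fun _ : Pt => (1 : ℝ)) (g := W.indicator Y) (v := Pi.single a 1) (by simp)
    (by simp only [one_mul]; exact hi) (by simpa using hs.continuous.integrable_of_hasCompactSupport hc)
    (fun _ _ => differentiableAt_const _) fun y _ => hs.differentiable (by simp) y
  have h2 : ∫ y, pd a (W.indicator Y) y = 0 := by simpa [pd] using h1
  refine NulOn.congr hW ⟨hi.integrableOn, ?_⟩ fun y hy => pd_congr (e1 y hy) a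
  rw [setIntegral_eq_integral_of_forall_compl_eq_zero fun y hy => z y fun h => hy (hKW h), h2]

theorem sign_ev {W : Set Pt} (hW : IsOpen W) {u : Pt → ℝ} (hu : ContinuousOn u W)
    (h0 : ∀ y ∈ W, u y ≠ 0) {y : Pt} (hy : y ∈ W) :
    (fun z => |u z| / u z) =ᶠ[𝓝 y] fun _ => |u y| / u y := by
  have hc := hu.continuousAt (hW.mem_nhds hy)
  rcases lt_or_gt_of_ne (h0 y hy) with h | h
  · filter_upwards [hc.eventually (gt_mem_nhds h)] with z hz
    rw [abs_of_neg hz, abs_of_neg h, neg_div, neg_div, div_self hz.ne, div_self h.ne]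
  · filter_upwards [hc.eventually (lt_mem_nhds h)] with z hz
    rw [abs_of_pos hz, abs_of_pos h, div_self hz.ne', div_self h.ne']

variable {M : Type*} [TopologicalSpace M] [ChartedSpace Pt M] [IsManifold 𝓘(ℝ, Pt) ∞ M]
  [MeasurableSpace M] {μ : Measure M} {Ω τ ζ : Form2 M} {l : Form1 M}

theorem stokes_loc (hΩ : Nd Ω) (hμ : IsVol Ω μ) (h : IsD l ζ) (hτ : Closed2 τ) (p : M)
    {K : Set M} (hK : IsCompact K) (hK' : IsClosed K) (hp : K ⊆ (chartAt Pt p).source)
    (h1 : ∀ x, x ∉ K → l x = 0) (h2 : ∀ x, x ∉ K → ζ x = 0) : ∫ x, quot Ω ζ τ x ∂μ = 0 := by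
  have hW := (chartAt Pt p).open_target
  rw [hμ.2.2 p _ (sm_quot hΩ h.sm hτ.sm).continuous ((closure_minimal (fun x hx => by
    by_contra hx'
    exact hx (quot_zero _ _ (h2 x hx'))) hK').trans hp)]
  set u := fun y => wedge (fun a c => co2 Ω p a c y) (fun a c => co2 Ω p a c y) / 2 with hu
  have hσ := fun y (hy : y ∈ (chartAt Pt p).target) => sign_ev (u := u) hW
    ((wedge_on hΩ.1 hΩ.1 p).div_const 2).continuousOn (fun y hy => hΩ.loc p hy) hy
  have sσ : ContDiffOn ℝ ∞ (fun z => |u z| / u z) (chartAt Pt p).target := fun y hy =>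
    (contDiffAt_const.congr_of_eventuallyEq (hσ y hy)).contDiffWithinAt
  have N : ∀ a c i j, NulOn (chartAt Pt p).target fun y => |u y| / u y *
      (pd a (co1 l p c) y * co2 τ p i j y + co1 l p c y * pd a (co2 τ p i j) y) := by
    intro a c i j
    refine (nulOn_pd hW (hK.image_of_continuousOn ((chartAt Pt p).continuousOn.mono hp))
      (image_subset_iff.2 fun x hx => (chartAt Pt p).map_source (hp hx))
      (sσ.mul ((h.2.1 p c).mul (hτ.2.1 p i j))) (fun y hy hy' => ?_) a).congr hW fun y hy => ?_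
    · have : (chartAt Pt p).symm y ∉ K := fun k => hy' ⟨_, k, (chartAt Pt p).right_inv hy⟩
      simp [co1, ev1, h1 _ this]
    · rw [pd_mul (dif_tgt sσ hy) (dif_tgt ((h.2.1 p c).mul (hτ.2.1 p i j)) hy),
        pd_mul (dif_tgt (h.2.1 p c) hy) (dif_tgt (hτ.2.1 p i j) hy), pd_congr (hσ y hy)]
      simp [pd]
  refine (NulOn.congr hW (((((((N 0 1 2 3).sub (N 1 0 2 3)).sub ((N 0 2 1 3).sub (N 2 0 1 3))).add
    ((N 0 3 1 2).sub (N 3 0 1 2))).add ((N 2 3 0 1).sub (N 3 2 0 1))).sub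
    ((N 1 3 0 2).sub (N 3 1 0 2))).add ((N 1 2 0 3).sub (N 2 1 0 3))) fun y hy => ?_).2
  rw [quot_loc hΩ.1.1 h.1 hτ.1 p hy]
  change _ = _ / u y * |u y|
  simp only [wedge, h.2.2 p _ _ y hy]
  linear_combination |u y| / u y * (-co1 l p 0 y * hτ.2.2 p 1 2 3 y hy +
    co1 l p 1 y * hτ.2.2 p 0 2 3 y hy - co1 l p 2 y * hτ.2.2 p 0 1 3 y hy +
    co1 l p 3 y * hτ.2.2 p 0 1 2 y hy)

variable [CompactSpace M] [T2Space M] [BorelSpace M]

omit [IsManifold 𝓘(ℝ, Pt) ∞ M] [T2Space M] in
theorem IsVol.int (hμ : IsVol Ω μ) {f : M → ℝ} (hf : Continuous f) : Integrable f μ :=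
  have := hμ.1
  hf.integrable_of_hasCompactSupport (HasCompactSupport.of_compactSpace f)

theorem stokes (hΩ : Nd Ω) (hμ : IsVol Ω μ) (h : IsD l ζ) (hτ : Closed2 τ) :
    ∫ x, quot Ω ζ τ x ∂μ = 0 := by
  obtain ⟨χ, hχ⟩ := SmoothPartitionOfUnity.exists_isSubordinate_chartAt_source 𝓘(ℝ, Pt) M
  let Q : (M → ℝ) → M → ℝ := fun f => quot Ω ((fun x => f x • ζ x) + w11 (df f) l) τ
  have hQ : ∀ f x, Q f x = f x * quot Ω ζ τ x + quot Ω (w11 (df f) l) τ x := fun f x => by
    simp only [Q, quot_add, quot_fsmul]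
  have iQ : ∀ {f}, Sm f → Integrable (Q f) μ := fun hf =>
    hμ.int (sm_quot hΩ (h.mul hf).sm hτ.sm).continuous
  have q0 : ∀ c x, Q (fun _ => c) x = c * quot Ω ζ τ x := fun c x => by
    rw [hQ, quot_w11 Ω τ (l1 := l) (l2 := l) l 0 0 fun u => by rw [df_const]; ring]
    ring
  have key : ∀ s : Finset M, Sm (fun x => ∑ i ∈ s, χ i x) ∧
      ∫ x, Q (fun x => ∑ i ∈ s, χ i x) x ∂μ = 0 := by
    intro s
    classical
    induction s using Finset.induction_on with
    | empty => exact ⟨contMDiff_const, by simp [q0]⟩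
    | insert i s hi ih =>
      simp only [Finset.sum_insert hi]
      have si : Sm (χ i) := (χ i).contMDiff
      refine ⟨si.add ih.1, ?_⟩
      have e : ∀ x, Q (fun x => χ i x + ∑ j ∈ s, χ j x) x =
          Q (χ i) x + Q (fun x => ∑ j ∈ s, χ j x) x := fun x => by
        rw [hQ, hQ, hQ, quot_w11 Ω τ (l1 := df (χ i)) (l2 := df fun x => ∑ j ∈ s, χ j x) l 1 1
          fun u => by rw [df_add si ih.1]; ring]
        ring
      simp only [e]
      rw [integral_add (iQ si) (iQ ih.1), ih.2, add_zero]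
      refine stokes_loc hΩ hμ (h.mul si) hτ i (isClosed_tsupport (χ i)).isCompact
        (isClosed_tsupport _) (hχ i) (fun x hx => ?_) fun x hx => ?_
      · rw [image_eq_zero_of_notMem_tsupport hx, zero_smul]
      · ext u v
        change χ i x * ζ x u v + (df (χ i) x u * l x v - l x u * df (χ i) x v) = 0
        have e0 := notMem_tsupport_iff_eventuallyEq.1 hx
        rw [image_eq_zero_of_notMem_tsupport hx, df_congr (g := fun _ => 0) e0,
          df_congr (g := fun _ => 0) e0, df_const, df_const]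
        ring
  have hf := χ.locallyFinite.finite_nonempty_of_compact
  have e : (fun x => ∑ i ∈ hf.toFinset, χ i x) = fun _ => 1 := by
    ext x
    rw [← χ.sum_eq_one (mem_univ x), finsum_eq_sum_of_support_subset]
    intro i hi
    simp only [Finite.coe_toFinset]
    exact ⟨x, hi⟩
  have := (key hf.toFinset).2
  simpa only [e, q0, one_mul] using this

end Pool.Agent.DonHK
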