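import Pool.Agent.Lib.MP_2710d6_gt.HK.Main

open MeasureTheory Set Filter Topology Metric
open scoped Manifold ContDiff

namespace Pool.Agent.DonHK

theorem cone_alg {n q r x y z : ℝ} (hq : 0 < q) (hr : 0 < r) (hx : x = n * q ^ 2 - 2 * q)
    (hy : y = n * r ^ 2 - 2 * r) (x0 : 0 ≤ x) (y0 : 0 ≤ y) (cs : z ^ 2 ≤ x * y) :
    z ≤ n * q * r - q - r ∧ (z = n * q * r - q - r → q = r) := by
  have a : 0 ≤ n * q - 2 := nonneg_of_mul_nonneg_right (a := q) (by nlinarith) hq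
  have b : 0 ≤ n * r - 2 := nonneg_of_mul_nonneg_right (a := r) (by nlinarith) hr
  have T : 0 ≤ n * q * r - q - r := by nlinarith [mul_nonneg a hr.le, mul_nonneg b hq.le]
  have e : (n * q * r - q - r) ^ 2 = x * y + (q - r) ^ 2 := by rw [hx, hy]; ring
  refine ⟨(le_abs_self z).trans (abs_le_of_sq_le_sq' (by nlinarith [sq_nonneg (q - r)]) T |> abs_le.2),
    fun h => ?_⟩
  rw [← h] at e
  exact sub_eq_zero.1 (pow_eq_zero_iff two_ne_zero |>.1 (le_antisymm (by linarith) (sq_nonneg _)))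

/-- Two positive forms whose self-dual parts are the same multiple of their squares. -/
theorem cone_pt {A B : Fin 4 → Fin 4 → ℝ} {c : Fin 3 → ℝ} (hA : 0 < wedge A A) (hB : 0 < wedge B B)
    (a : ∀ i, wedge A (std i) = c i * wedge A A) (b : ∀ i, wedge B (std i) = c i * wedge B B) :
    0 ≤ 2 * wedge A B - wedge A A - wedge B B ∧ (2 * wedge A B - wedge A A - wedge B B = 0 →
      A 0 1 = B 0 1 ∧ A 0 2 = B 0 2 ∧ A 0 3 = B 0 3 ∧ A 1 2 = B 1 2 ∧ A 1 3 = B 1 3 ∧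
        A 2 3 = B 2 3) := by
  have a0 := a 0
  have a1 := a 1
  have a2 := a 2
  have b0 := b 0
  have b1 := b 1
  have b2 := b 2
  rw [wedge_std0] at a0 b0
  rw [wedge_std1] at a1 b1
  rw [wedge_std2] at a2 b2
  have w : ∀ A B : Fin 4 → Fin 4 → ℝ, 2 * wedge A B = (A 0 1 + A 2 3) * (B 0 1 + B 2 3) +
      (A 0 2 - A 1 3) * (B 0 2 - B 1 3) + (A 0 3 + A 1 2) * (B 0 3 + B 1 2) -
      ((A 0 1 - A 2 3) * (B 0 1 - B 2 3) + (A 0 2 + A 1 3) * (B 0 2 + B 1 3) +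
        (A 0 3 - A 1 2) * (B 0 3 - B 1 2)) := fun A B => by unfold wedge; ring
  have wA := w A A
  have wB := w B B
  have wAB := w A B
  rw [a0, a1, a2] at wA wAB
  rw [b0, b1, b2] at wB wAB
  generalize wedge A B = u at *
  generalize wedge A A = q at *
  generalize wedge B B = r at *
  set m1 := A 0 1 - A 2 3 with hm1
  set m2 := A 0 2 + A 1 3 with hm2
  set m3 := A 0 3 - A 1 2 with hm3
  set l1 := B 0 1 - B 2 3 with hl1
  set l2 := B 0 2 + B 1 3 with hl2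
  set l3 := B 0 3 - B 1 2 with hl3
  obtain ⟨k1, k2⟩ := cone_alg (n := c 0 ^ 2 + c 1 ^ 2 + c 2 ^ 2) (x := m1 ^ 2 + m2 ^ 2 + m3 ^ 2)
    (y := l1 ^ 2 + l2 ^ 2 + l3 ^ 2) (z := m1 * l1 + m2 * l2 + m3 * l3) hA hB
    (by linear_combination wA) (by linear_combination wB) (by positivity) (by positivity)
    (by nlinarith [sq_nonneg (m1 * l2 - m2 * l1), sq_nonneg (m1 * l3 - m3 * l1),
      sq_nonneg (m2 * l3 - m3 * l2)])
  refine ⟨by linarith, fun h => ?_⟩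
  obtain rfl : q = r := k2 (by linarith)
  have s : (m1 - l1) ^ 2 + (m2 - l2) ^ 2 + (m3 - l3) ^ 2 = 0 := by
    linear_combination wA + wB - 2 * wAB + 2 * h
  have s1 := sq_nonneg (m1 - l1)
  have s2 := sq_nonneg (m2 - l2)
  have s3 := sq_nonneg (m3 - l3)
  have z : ∀ {t : ℝ}, t ^ 2 ≤ 0 → t = 0 := fun h =>
    pow_eq_zero_iff two_ne_zero |>.1 (le_antisymm h (sq_nonneg _))
  have e1 := z (t := m1 - l1) (by linarith)
  have e2 := z (t := m2 - l2) (by linarith)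
  have e3 := z (t := m3 - l3) (by linarith)
  refine ⟨?_, ?_, ?_, ?_, ?_, ?_⟩ <;> linarith

variable {M : Type*} [TopologicalSpace M] [ChartedSpace Pt M] [IsManifold 𝓘(ℝ, Pt) ∞ M]
  [MeasurableSpace M] {μ : Measure M} [CompactSpace M] [BorelSpace M] [T2Space M]
  {Ω : Fin 3 → Form2 M} {ρ σ : Form2 M}

omit [IsManifold 𝓘(ℝ, Pt) ∞ M] [MeasurableSpace M] [CompactSpace M] [BorelSpace M] [T2Space M] in
theorem Exact.neg (h : Exact σ) : Exact (-σ) := by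
  obtain ⟨l, h1, h2, h3⟩ := h
  refine ⟨-l, fun x => (h1 x).neg, fun p c => (h2 p c).neg, fun p a c y hy => ?_⟩
  have e : ∀ a c, pd a (co1 (-l) p c) y = -pd a (co1 l p c) y := fun a c => by
    change fderiv ℝ (-(co1 l p c)) y _ = _
    rw [fderiv_neg]
    rfl
  rw [e, e]
  change -co2 σ p a c y = _
  rw [h3 p a c y hy]
  ring

/-- Two cohomologous solutions with the same constants agree. -/
theorem eq_of_const (h : IsHK Ω) (hμ : IsVol (Ω 0) μ) (hρ : Closed2 ρ)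
    (hp : ∀ x, 0 < quot (Ω 0) ρ ρ x) (hσ : Closed2 σ) (hs : ∀ x, 0 < quot (Ω 0) σ σ x)
    (he : Exact (σ - ρ)) {c : Fin 3 → ℝ}
    (hc : ∀ i x, quot (Ω 0) ρ (Ω i) x = c i * quot (Ω 0) ρ ρ x)
    (hd : ∀ i x, quot (Ω 0) σ (Ω i) x = c i * quot (Ω 0) σ σ x) : σ = ρ := by
  choose v hv h0 hq using h.pt
  have qρ := fun x => hq x _ _ (hρ.1 x) (hρ.1 x)
  have qσ := fun x => hq x _ _ (hσ.1 x) (hσ.1 x)
  have qm := fun x => hq x _ _ (hρ.1 x) (hσ.1 x)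
  have P := fun x => cone_pt (A := ev (ρ x) (v x)) (B := ev (σ x) (v x)) (c := c)
    (qρ x ▸ hp x) (qσ x ▸ hs x)
    (fun i => by rw [← hv, ← hq x _ _ (hρ.1 x) ((h.1 i).1 x), hc, qρ])
    (fun i => by rw [← hv, ← hq x _ _ (hσ.1 x) ((h.1 i).1 x), hd, qσ])
  have N : Nul μ fun x => 2 * wedge (ev (ρ x) (v x)) (ev (σ x) (v x)) -
      wedge (ev (ρ x) (v x)) (ev (ρ x) (v x)) - wedge (ev (σ x) (v x)) (ev (σ x) (v x)) := by
    convert (nul_exact h hμ he hρ).sub (nul_exact h hμ he hσ) using 2 with x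
    rw [quot_sub, quot_sub, quot_comm _ σ ρ, qρ, qσ, qm]
    ring
  funext x
  obtain ⟨e01, e02, e03, e12, e13, e23⟩ := (P x).2 (N.eq_zero hμ (fun x => (P x).1) x)
  have g : ∀ {a c}, ev (ρ x) (v x) a c = ev (σ x) (v x) a c →
      ev (ρ x) (v x) c a = ev (σ x) (v x) c a := fun {a c} k =>
    ((hρ.1 x).neg_eq _ _).symm.trans ((congrArg Neg.neg k).trans ((hσ.1 x).neg_eq _ _))
  have d : ∀ a, ev (ρ x) (v x) a a = ev (σ x) (v x) a a := fun a =>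
    (hρ.1 x _).trans (hσ.1 x _).symm
  refine (LinearMap.BilinForm.ext_basis (v x) fun a c => ?_).symm
  change ev (ρ x) (v x) a c = ev (σ x) (v x) a c
  fin_cases a <;> fin_cases c
  exacts [d 0, e01, e02, e03, g e01, d 1, e12, e13, g e02, g e12, d 2, e23, g e03, g e13, g e23,
    d 3]

/-- A critical point is the strict absolute minimum of the energy in its class. -/
theorem strict_min [ConnectedSpace M] (h : IsHK Ω) (hμ : IsVol (Ω 0) μ) (hρ : Closed2 ρ)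
    (hp : ∀ x, 0 < quot (Ω 0) ρ ρ x) (hc : IsCritical Ω μ ρ) (hσ : Closed2 σ)
    (hs : ∀ x, 0 < quot (Ω 0) σ σ x) (he : Exact (σ - ρ)) (hne : σ ≠ ρ) :
    energy Ω μ ρ < energy Ω μ σ := by
  obtain ⟨c, hc⟩ := (main h hμ hρ hp).1 hc
  have sE : ∀ {τ : Form2 M}, Closed2 τ → (∀ x, 0 < quot (Ω 0) τ τ x) →
      Sm fun x => (∑ i, quot (Ω 0) τ (Ω i) x ^ 2) / quot (Ω 0) τ τ x := fun hτ ht =>
    (contMDiff_finsetSum fun i _ => (sm_quot h.nd hτ.sm (h.1 i).sm).pow 2).div₀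
      (sm_quot h.nd hτ.sm hτ.sm) fun x => (ht x).ne'
  have n := fun i => (nul_exact h hμ he (h.1 i)).cmul (2 * c i)
  have N := (((n 0).add (n 1)).add (n 2)).sub (((nul_exact h hμ he hρ).add
    (nul_exact h hμ he hσ)).cmul (c 0 ^ 2 + c 1 ^ 2 + c 2 ^ 2))
  have iρ := hμ.int (sE hρ hp).continuous
  have iσ := hμ.int (sE hσ hs).continuous
  have sD := ((sE hσ hs).sub (sE hρ hp)).sub N.1
  have e : ∀ x, (∑ i, quot (Ω 0) σ (Ω i) x ^ 2) / quot (Ω 0) σ σ x -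
      (∑ i, quot (Ω 0) ρ (Ω i) x ^ 2) / quot (Ω 0) ρ ρ x -
      (2 * c 0 * quot (Ω 0) (σ - ρ) (Ω 0) x + 2 * c 1 * quot (Ω 0) (σ - ρ) (Ω 1) x +
        2 * c 2 * quot (Ω 0) (σ - ρ) (Ω 2) x - (c 0 ^ 2 + c 1 ^ 2 + c 2 ^ 2) *
          (quot (Ω 0) (σ - ρ) ρ x + quot (Ω 0) (σ - ρ) σ x)) =
      (∑ i, (quot (Ω 0) σ (Ω i) x - c i * quot (Ω 0) σ σ x) ^ 2) / quot (Ω 0) σ σ x := fun x => by
    have := (hp x).ne'
    have := (hs x).ne'
    simp only [quot_sub, Fin.sum_univ_three, hc, quot_comm _ ρ σ]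
    field_simp
    ring
  have p : ∀ x, 0 ≤ (∑ i, (quot (Ω 0) σ (Ω i) x - c i * quot (Ω 0) σ σ x) ^ 2) /
      quot (Ω 0) σ σ x := fun x => div_nonneg (Finset.sum_nonneg fun _ _ => sq_nonneg _) (hs x).le
  have I : ∫ x, (∑ i, (quot (Ω 0) σ (Ω i) x - c i * quot (Ω 0) σ σ x) ^ 2) / quot (Ω 0) σ σ x ∂μ =
      energy Ω μ σ - energy Ω μ ρ := by
    simp only [← e]
    exact (integral_sub (iσ.sub iρ) N.2.1).trans
      (by rw [N.2.2, sub_zero]; exact integral_sub iσ iρ)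
  refine sub_pos.1 (I ▸ lt_of_le_of_ne (integral_nonneg p) fun z => hne ?_)
  have ND : Nul μ fun x => (∑ i, (quot (Ω 0) σ (Ω i) x - c i * quot (Ω 0) σ σ x) ^ 2) /
      quot (Ω 0) σ σ x := by
    have s : Sm _ := (funext e) ▸ sD
    exact ⟨s, hμ.int s.continuous, z.symm⟩
  refine eq_of_const h hμ hρ hp hσ hs he hc fun i x => ?_
  have := (div_eq_zero_iff.1 (ND.eq_zero hμ p x)).resolve_right (hs x).ne'
  exact sub_eq_zero.1 (pow_eq_zero_iff two_ne_zero |>.1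
    ((Finset.sum_eq_zero_iff_of_nonneg fun _ _ => sq_nonneg _).1 this i (Finset.mem_univ i)))

end Pool.Agent.DonHK
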