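import Pool.Agent.Lib.MP_2710d6_gt.HK.Var

open MeasureTheory Set Filter Topology
open scoped Manifold ContDiff

namespace Pool.Agent.DonHK

abbrev T4 := Fin 4 → UnitAddCircle

noncomputable def tch (a : Pt) : OpenPartialHomeomorph T4 Pt :=
  (OpenPartialHomeomorph.pi fun i => AddCircle.openPartialHomeomorphCoe (1 : ℝ) (a i)).symm

noncomputable def tpt (p : T4) : Pt := fun i => (AddCircle.equivIco 1 0 (p i) : ℝ) - 1 / 2

def tcoe (y : Pt) : T4 := fun i => (y i : UnitAddCircle)

theorem tch_symm (a y : Pt) : (tch a).symm y = tcoe y := rfl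

theorem tch_mem (p : T4) : p ∈ (tch (tpt p)).source := by
  have h : (fun i => (AddCircle.equivIco 1 0 (p i) : ℝ)) ∈ (tch (tpt p)).target := fun i _ => by
    change _ ∈ Ioo (tpt p i) (tpt p i + 1)
    simp only [tpt]
    constructor <;> linarith
  have h1 := (tch (tpt p)).map_target h
  rwa [tch_symm, show tcoe (fun i => (AddCircle.equivIco 1 0 (p i) : ℝ)) = p from
    funext fun i => (AddCircle.equivIco 1 0).symm_apply_apply (p i)] at h1

theorem tch_ev (a : Pt) {y : Pt} (hy : tcoe y ∈ (tch a).source) :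
    (fun z => tch a (tcoe z)) =ᶠ[𝓝 y] fun z => z + (tch a (tcoe y) - y) := by
  have h1 : tcoe (tch a (tcoe y)) = tcoe y := (tch a).left_inv hy
  have h2 : ContinuousAt (fun z : Pt => z + (tch a (tcoe y) - y)) y := by fun_prop
  filter_upwards [h2.eventually ((tch a).open_target.mem_nhds (by
    simpa using (tch a).map_source hy))] with z hz
  rw [← (tch a).right_inv hz, tch_symm]
  congr 1
  ext i
  have := congrFun h1 i
  simp only [tcoe, Pi.add_apply, Pi.sub_apply, AddCircle.coe_add, AddCircle.coe_sub] at this ⊢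
  rw [this, sub_self, add_zero]

noncomputable abbrev tcs : ChartedSpace Pt T4 where
  atlas := range tch
  chartAt p := tch (tpt p)
  mem_chart_source := tch_mem
  chart_mem_atlas _ := mem_range_self _

theorem tman : @IsManifold ℝ _ Pt _ _ Pt _ 𝓘(ℝ, Pt) ∞ T4 _ tcs := by
  let _ := tcs
  refine isManifold_of_contDiffOn _ _ _ ?_
  rintro _ _ ⟨a, rfl⟩ ⟨c, rfl⟩ y hy
  have h : tcoe y ∈ (tch c).source := hy.1.2
  exact ((contDiffAt_id.add contDiffAt_const).congr_of_eventuallyEq (tch_ev c h)).contDiffWithinAt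

theorem tframe (p : T4) (y : Pt) (a : Fin 4) : @frame T4 _ tcs p y a = (Pi.single a 1 : Pt) := by
  let _ := tcs
  have hc : Continuous tcoe :=
    continuous_pi fun i => (AddCircle.continuous_mk' 1).comp (continuous_apply i)
  have h : HasMFDerivAt 𝓘(ℝ, Pt) 𝓘(ℝ, Pt) tcoe y (ContinuousLinearMap.id ℝ Pt) := by
    refine ⟨hc.continuousAt, HasFDerivAt.hasFDerivWithinAt ?_⟩
    exact ((hasFDerivAt_id y).add_const _).congr_of_eventuallyEq (tch_ev _ (tch_mem (tcoe y)))
  exact congrArg (fun L : Pt →L[ℝ] Pt => L (Pi.single a 1)) h.mfderiv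

theorem std_alt (i : Fin 3) : (Matrix.toBilin' (Matrix.of (std i))).IsAlt := fun u => by
  have h : ∀ a c, std i c a = -std i a c := fun a c => by
    fin_cases i <;> fin_cases a <;> fin_cases c <;>
      first | rfl | exact neg_zero.symm | exact (neg_neg _).symm
  have d : ∀ a, std i a a = 0 := fun a => by linarith [h a a]
  simp only [Matrix.toBilin'_apply, Fin.sum_univ_four, Matrix.of_apply, d, h 0 1, h 0 2, h 0 3,
    h 1 2, h 1 3, h 2 3]
  ring

theorem torus : ∃ (_ : ChartedSpace Pt T4) (_ : IsManifold 𝓘(ℝ, Pt) ∞ T4)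
    (Ω : Fin 3 → Form2 T4) (μ : Measure T4), IsHK Ω ∧ IsVol (Ω 0) μ := by
  let _ := tcs
  let Ω : Fin 3 → Form2 T4 := fun i _ => Matrix.toBilin' (Matrix.of (std i))
  have e : ∀ i p a c, co2 (Ω i) p a c = fun _ => std i a c := fun i p a c => funext fun y => by
    unfold co2 ev
    rw [tframe, tframe]
    exact Matrix.toBilin'_single _ _ _
  refine ⟨tcs, tman, Ω, Measure.pi fun _ => AddCircle.haarAddCircle, ⟨fun i => ⟨fun _ => std_alt i,
    fun p a c => ?_, fun p a c d y _ => ?_⟩, fun x => ⟨Pi.basisFun ℝ (Fin 4), fun i => funext fun a => funext fun c => ?_⟩⟩,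
    inferInstance, inferInstance, fun p F _ _ => ?_⟩
  · rw [e]; exact contDiffOn_const
  · simp [e, pd]
  · have := Matrix.toBilin'_single (Matrix.of (std i)) a c
    rw [← Pi.basisFun_apply, ← Pi.basisFun_apply] at this
    exact this
  · have w2 : wedge (std 0) (std 0) = 2 := (wedge_std0 _).trans one_add_one_eq_two
    simp only [e, w2]
    refine (UnitAddTorus.integral_preimage F (tpt p)).trans ?_
    have h1 : (chartAt Pt p).target =ᵐ[volume] {x : Pt | ∀ i, x i ∈ Ioc (tpt p i) (tpt p i + 1)} := by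
      have h2 := Measure.pi_Ioo_ae_eq_pi_Ioc (μ := fun _ : Fin 4 => (volume : Measure ℝ))
        (s := univ) (f := tpt p) (g := fun i => tpt p i + 1)
      have h3 : {x : Pt | ∀ i, x i ∈ Ioc (tpt p i) (tpt p i + 1)} =
          univ.pi fun i => Ioc (tpt p i) (tpt p i + 1) := by
        ext x
        simp only [mem_ofPred_eq, mem_univ_pi]
      rw [h3]
      exact h2
    rw [setIntegral_congr_set h1]
    simp only [ne_eq, OfNat.ofNat_ne_zero, not_false_eq_true, div_self, abs_one, mul_one]
    rfl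

end Pool.Agent.DonHK
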