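import Pool.Agent.Lib.MP_2710d6_gt.HK.Stokes

open MeasureTheory Set Filter Topology Metric
open scoped Manifold ContDiff

namespace Pool.Agent.DonHK

theorem hasDerivAt_quot {M : Type*} [TopologicalSpace M] [CompactSpace M] [MeasurableSpace M]
    [BorelSpace M] (μ : Measure M) [IsFiniteMeasure μ] {N0 N1 N2 U0 U1 U2 : M → ℝ}
    (c0 : Continuous N0) (c1 : Continuous N1) (c2 : Continuous N2) (d0 : Continuous U0)
    (d1 : Continuous U1) (d2 : Continuous U2) (hp : ∀ x, 0 < U0 x) :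
    HasDerivAt (fun t : ℝ => ∫ x,
      (N0 x + t * N1 x + t ^ 2 * N2 x) / (U0 x + t * U1 x + t ^ 2 * U2 x) ∂μ)
      (∫ x, (N1 x * U0 x - N0 x * U1 x) / U0 x ^ 2 ∂μ) 0 := by
  have int : ∀ {f : M → ℝ}, Continuous f → Integrable f μ := fun hf =>
    hf.integrable_of_hasCompactSupport (HasCompactSupport.of_compactSpace _)
  have ho : IsOpen {p : ℝ × M | U0 p.2 + p.1 * U1 p.2 + p.1 ^ 2 * U2 p.2 ≠ 0} :=
    isOpen_ne_fun (by fun_prop) continuous_const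
  obtain ⟨u, v, hu, -, h0, hv, huv⟩ := generalized_tube_lemma (isCompact_singleton (x := (0 : ℝ)))
    isCompact_univ ho (by
      rintro ⟨t, x⟩ ⟨ht, -⟩
      have : t = 0 := ht
      simp [this, (hp x).ne'])
  obtain ⟨ε, e0, hε⟩ := nhds_basis_closedBall.mem_iff.1 (hu.mem_nhds (h0 (mem_singleton _)))
  have hU : ∀ x, ∀ t ∈ closedBall (0 : ℝ) ε, U0 x + t * U1 x + t ^ 2 * U2 x ≠ 0 := fun x t ht =>
    huv (mk_mem_prod (hε ht) (hv (mem_univ x)))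
  have hc : ContinuousOn (fun p : ℝ × M => ((N1 p.2 + 2 * p.1 * N2 p.2) *
      (U0 p.2 + p.1 * U1 p.2 + p.1 ^ 2 * U2 p.2) - (N0 p.2 + p.1 * N1 p.2 + p.1 ^ 2 * N2 p.2) *
      (U1 p.2 + 2 * p.1 * U2 p.2)) / (U0 p.2 + p.1 * U1 p.2 + p.1 ^ 2 * U2 p.2) ^ 2)
      (closedBall 0 ε ×ˢ univ) :=
    ContinuousOn.div (by fun_prop) (by fun_prop) fun p hp' => pow_ne_zero 2 (hU _ _ hp'.1)
  obtain ⟨C, hC⟩ :=
    ((isCompact_closedBall (0 : ℝ) ε).prod isCompact_univ).exists_bound_of_continuousOn hc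
  have cF : ∀ t ∈ closedBall (0 : ℝ) ε, Continuous fun x =>
      (N0 x + t * N1 x + t ^ 2 * N2 x) / (U0 x + t * U1 x + t ^ 2 * U2 x) := fun t ht =>
    Continuous.div (by fun_prop) (by fun_prop) fun x => hU x t ht
  have := (hasDerivAt_integral_of_dominated_loc_of_deriv_le (μ := μ) (bound := fun _ => C)
    (F := fun t x => (N0 x + t * N1 x + t ^ 2 * N2 x) / (U0 x + t * U1 x + t ^ 2 * U2 x))
    (F' := fun t x => ((N1 x + 2 * t * N2 x) * (U0 x + t * U1 x + t ^ 2 * U2 x) -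
      (N0 x + t * N1 x + t ^ 2 * N2 x) * (U1 x + 2 * t * U2 x)) /
        (U0 x + t * U1 x + t ^ 2 * U2 x) ^ 2)
    (closedBall_mem_nhds (0 : ℝ) e0)
    (by filter_upwards [closedBall_mem_nhds (0 : ℝ) e0] with t ht using
      (int (cF t ht)).aestronglyMeasurable)
    (int (cF 0 (mem_closedBall_self e0.le)))
    (int (hc.comp_continuous (f := fun x : M => ((0 : ℝ), x)) (by fun_prop)
      fun x => ⟨mem_closedBall_self e0.le, mem_univ _⟩)).aestronglyMeasurable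
    (Eventually.of_forall fun x t ht => hC (t, x) ⟨ht, mem_univ _⟩) (integrable_const C)
    (Eventually.of_forall fun x t ht => by
      have h : ∀ a0 a1 a2 : ℝ, HasDerivAt (fun t : ℝ => a0 + t * a1 + t ^ 2 * a2)
          (a1 + 2 * t * a2) t := fun a0 a1 a2 => by
        simpa using (((hasDerivAt_id t).mul_const a1).const_add a0).fun_add
          ((hasDerivAt_pow 2 t).mul_const a2)
      exact (h _ _ _).fun_div (h _ _ _) (hU x t ht))).2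
  simpa using this

theorem wedge_std0 (A : Fin 4 → Fin 4 → ℝ) : wedge A (std 0) = A 0 1 + A 2 3 := by
  change A 0 1 * 1 - A 0 2 * 0 + A 0 3 * 0 + A 2 3 * 1 - A 1 3 * 0 + A 1 2 * 0 = _
  ring

theorem wedge_std1 (A : Fin 4 → Fin 4 → ℝ) : wedge A (std 1) = A 0 2 - A 1 3 := by
  change A 0 1 * 0 - A 0 2 * -1 + A 0 3 * 0 + A 2 3 * 0 - A 1 3 * 1 + A 1 2 * 0 = _
  ring

theorem wedge_std2 (A : Fin 4 → Fin 4 → ℝ) : wedge A (std 2) = A 0 3 + A 1 2 := by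
  change A 0 1 * 0 - A 0 2 * 0 + A 0 3 * 1 + A 2 3 * 0 - A 1 3 * 0 + A 1 2 * 1 = _
  ring

variable {M : Type*} [TopologicalSpace M] [ChartedSpace Pt M] {Ω : Fin 3 → Form2 M}
  {ρ ζ : Form2 M}

theorem IsHK.pt (h : IsHK Ω) (x : M) : ∃ v : Module.Basis (Fin 4) ℝ (Tan x),
    (∀ i, ev (Ω i x) v = std i) ∧ wedge (mat (Ω 0) x) (mat (Ω 0) x) ≠ 0 ∧
      ∀ α β : Form2 M, (α x).IsAlt → (β x).IsAlt →
        quot (Ω 0) α β x = wedge (ev (α x) v) (ev (β x) v) := by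
  obtain ⟨v, e⟩ := h.2 x
  have w2 : wedge (std 0) (std 0) = 2 := (wedge_std0 _).trans one_add_one_eq_two
  have h1 := wedge_fr ((h.1 0).1 x) ((h.1 0).1 x) v
  rw [e, w2] at h1
  have h2 := mul_ne_zero_iff.1 (h1 ▸ two_ne_zero)
  refine ⟨v, e, h2.2, fun α β hα hβ => ?_⟩
  rw [quot_ev ((h.1 0).1 x) hα hβ v h2.1, e, w2]
  simp

theorem IsHK.nd (h : IsHK Ω) : Nd (Ω 0) := ⟨(h.1 0).sm, fun x => (h.pt x).choose_spec.2.1⟩

/-- The functions `K_i / 2`. -/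
noncomputable def kk (Ω : Fin 3 → Form2 M) (ρ : Form2 M) (i : Fin 3) (x : M) : ℝ :=
  quot (Ω 0) ρ (Ω i) x / quot (Ω 0) ρ ρ x

noncomputable def nn (Ω : Fin 3 → Form2 M) (ρ : Form2 M) (x : M) : ℝ :=
  kk Ω ρ 0 x * kk Ω ρ 0 x + kk Ω ρ 1 x * kk Ω ρ 1 x + kk Ω ρ 2 x * kk Ω ρ 2 x

variable [IsManifold 𝓘(ℝ, Pt) ∞ M]

theorem sm_kk (h : IsHK Ω) (hρ : Sm2 ρ) (hp : ∀ x, 0 < quot (Ω 0) ρ ρ x) (i : Fin 3) :
    Sm (kk Ω ρ i) :=
  (sm_quot h.nd hρ (h.1 i).sm).div₀ (sm_quot h.nd hρ hρ) fun x => (hp x).ne'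

theorem sm_nn (h : IsHK Ω) (hρ : Sm2 ρ) (hp : ∀ x, 0 < quot (Ω 0) ρ ρ x) : Sm (nn Ω ρ) :=
  (((sm_kk h hρ hp 0).mul (sm_kk h hρ hp 0)).add ((sm_kk h hρ hp 1).mul (sm_kk h hρ hp 1))).add
    ((sm_kk h hρ hp 2).mul (sm_kk h hρ hp 2))

variable [MeasurableSpace M] {μ : Measure M} [CompactSpace M] [BorelSpace M]

theorem hasDerivAt_energy (h : IsHK Ω) (hμ : IsVol (Ω 0) μ) (hρ : Sm2 ρ)
    (hp : ∀ x, 0 < quot (Ω 0) ρ ρ x) (hζ : Sm2 ζ) :
    HasDerivAt (fun t : ℝ => energy Ω μ (ρ + t • ζ))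
      (∫ x, 2 * (kk Ω ρ 0 x * quot (Ω 0) ζ (Ω 0) x + kk Ω ρ 1 x * quot (Ω 0) ζ (Ω 1) x +
        kk Ω ρ 2 x * quot (Ω 0) ζ (Ω 2) x - nn Ω ρ x * quot (Ω 0) ζ ρ x) ∂μ) 0 := by
  have := hμ.1
  have a := fun i => (sm_quot h.nd hρ (h.1 i).sm).continuous
  have b := fun i => (sm_quot h.nd hζ (h.1 i).sm).continuous
  convert hasDerivAt_quot μ (N0 := fun x => ∑ i, quot (Ω 0) ρ (Ω i) x ^ 2)
    (N1 := fun x => 2 * ∑ i, quot (Ω 0) ρ (Ω i) x * quot (Ω 0) ζ (Ω i) x)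
    (N2 := fun x => ∑ i, quot (Ω 0) ζ (Ω i) x ^ 2) (U1 := fun x => 2 * quot (Ω 0) ζ ρ x)
    (by fun_prop) (by fun_prop) (by fun_prop) (sm_quot h.nd hρ hρ).continuous
    (continuous_const.mul (sm_quot h.nd hζ hρ).continuous) (sm_quot h.nd hζ hζ).continuous hp
    using 2 with t
  · unfold energy
    congr 1
    ext x
    congr 1
    · simp only [Fin.sum_univ_three, quot_add, quot_smul]
      ring
    · rw [quot_add, quot_smul, quot_comm _ ρ, quot_comm _ ζ, quot_add, quot_smul, quot_add,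
        quot_smul, quot_comm _ ρ ζ]
      ring
  · ext x
    have := (hp x).ne'
    simp only [Fin.sum_univ_three, nn, kk]
    field_simp

end Pool.Agent.DonHK
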